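import Pool.Agent.Zk42.UV.Par
import Pool.Agent.H437R2.Man.MWCan

/-! The global parallelogram law. -/

set_option autoImplicit false

namespace Pool.Agent.Zk42.UV

open Finset Height WeierstrassCurve Pool.Agent.H437R2.Man Pool.Agent.H437R2.Man.Phi
  Pool.Agent.H437R2.Man.MW Height.AdmissibleAbsValues

section err

variable {F : Type} [Field F] [NumberField F]

/-- the error term of a finite set of numbers -/
noncomputable def WE (E : Finset F) (v : AbsoluteValue F ℝ) : ℝ := ∑ z ∈ E, (lx z v + lx z⁻¹ v)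

lemma WE_nonneg (E : Finset F) (v : AbsoluteValue F ℝ) : 0 ≤ WE E v :=
  sum_nonneg fun _ _ => add_nonneg (lx_nonneg _ _) (lx_nonneg _ _)

lemma le_WE {E : Finset F} {v : AbsoluteValue F ℝ} {k : ℝ} (hk : 1 ≤ k) {z : F} (hz : z ∈ E) :
    v z ≤ k * Real.exp (WE E v) ∧ v z⁻¹ ≤ k * Real.exp (WE E v) := by
  have h1 : ∀ x : F, lx x v ≤ WE E v → v x ≤ k * Real.exp (WE E v) := by
    intro x hx
    have h2 : v x ≤ Real.exp (lx x v) := by
      unfold lx
      rw [Real.exp_log (lt_of_lt_of_le one_pos (le_max_right _ _))]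
      exact le_max_left _ _
    calc v x ≤ Real.exp (WE E v) := h2.trans (Real.exp_le_exp.2 hx)
      _ = 1 * Real.exp (WE E v) := (one_mul _).symm
      _ ≤ _ := by gcongr
  have h2 : lx z v + lx z⁻¹ v ≤ WE E v :=
    single_le_sum (f := fun z : F => lx z v + lx z⁻¹ v)
      (fun z _ => add_nonneg (lx_nonneg z v) (lx_nonneg z⁻¹ v)) hz
  have h3 := lx_nonneg z v
  have h4 := lx_nonneg z⁻¹ v
  exact ⟨h1 z (by linarith), h1 z⁻¹ (by linarith)⟩

lemma FS_WE (E : Finset F) : FS (WE E) ∧ gs (WE E) = ∑ z ∈ E, 2 * logHeight₁ z := by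
  obtain ⟨h1, h2⟩ := UG.FS_sum E (fun z v => lx z v + lx z⁻¹ v)
    fun z _ => (FS_lx z).add (FS_lx z⁻¹)
  refine ⟨h1, ?_⟩
  have h3 : gs (WE E) = ∑ i ∈ E, gs (fun v => lx i v + lx i⁻¹ v) := h2
  rw [h3]
  apply sum_congr rfl
  intro z _
  rw [gs_add (FS_lx z) (FS_lx z⁻¹), gs_lx, gs_lx, logHeight₁_inv]
  ring

lemma mfun {x z : F} (h : z ≠ 0 ∨ (z = 0 ∧ x ≠ 0)) :
    FS (fun v : AbsoluteValue F ℝ => Real.log (max (v x) (v z))) ∧
      gs (fun v : AbsoluteValue F ℝ => Real.log (max (v x) (v z))) = logHeight₁ (x / z) := by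
  rcases h with h | ⟨rfl, hx⟩
  · exact gs_pair h _ fun v => rfl
  · have e : (fun v : AbsoluteValue F ℝ => Real.log (max (v x) (v (0 : F)))) =
        fun v : AbsoluteValue F ℝ => Real.log (v x) := by
      funext v
      rw [map_zero, max_eq_left (v.nonneg _)]
    rw [e, div_zero, logHeight₁_zero]
    exact ⟨FS_log hx, gs_log hx⟩

end err

section glob

variable {K F : Type} [Field K] [Field F] [NumberField F]

/-- the height of the scaled first coordinate -/
noncomputable def HH (φ : K →+* F) (δ : K) {e1 e2 e3 : K} (P : Pt (δ * e1) (δ * e2) (δ * e3)) : ℝ :=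
  logHeight₁ (φ (P.xRep 0 / δ) / φ (P.xRep 1))

lemma HH_nonneg (φ : K →+* F) (δ : K) {e1 e2 e3 : K} (P : Pt (δ * e1) (δ * e2) (δ * e3)) :
    0 ≤ HH φ δ P := zero_le_logHeight₁ _

lemma rep_cases (φ : K →+* F) {δ : K} (hδ : δ ≠ 0) {e1 e2 e3 : K}
    (P : Pt (δ * e1) (δ * e2) (δ * e3)) :
    φ (P.xRep 1) ≠ 0 ∨ (φ (P.xRep 1) = 0 ∧ φ (P.xRep 0 / δ) ≠ 0) := by
  match P with
  | 0 =>
    right
    rw [Affine.Point.xRep_zero]
    simp [hδ]
  | .some x y h =>
    left
    rw [Affine.Point.xRep_some]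
    simp

lemma rep_pos (φ : K →+* F) {δ : K} (hδ : δ ≠ 0) {e1 e2 e3 : K}
    (P : Pt (δ * e1) (δ * e2) (δ * e3)) (v : AbsoluteValue F ℝ) :
    0 < max (v (φ (P.xRep 0 / δ))) (v (φ (P.xRep 1))) := by
  rcases rep_cases φ hδ P with h | ⟨-, h⟩
  · exact lt_of_lt_of_le (v.pos h) (le_max_right _ _)
  · exact lt_of_lt_of_le (v.pos h) (le_max_left _ _)

/-- the algebraic relation -/
lemma rel [CharZero K] [DecidableEq K] {e1 e2 e3 δ : K} (p12 : e1 ≠ e2) (p13 : e1 ≠ e3)
    (p23 : e2 ≠ e3) (hδ0 : δ ≠ 0) (P Q : Pt (δ * e1) (δ * e2) (δ * e3)) :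
    ∃ κ : K, κ ≠ 0 ∧ ∀ e ∈ ({e1, e2, e3} : Set K),
      ((P.xRep 0 / δ) * (Q.xRep 0 / δ) + e * ((P.xRep 0 / δ) * Q.xRep 1 + P.xRep 1 * (Q.xRep 0 / δ)) +
      (-2 * e ^ 2 + 2 * (e1 + e2 + e3) * e - (e1 * e2 + e1 * e3 + e2 * e3)) *
        (P.xRep 1 * Q.xRep 1)) ^ 2 =
      κ * (((P + Q).xRep 0 / δ + e * (P + Q).xRep 1) * ((P - Q).xRep 0 / δ + e * (P - Q).xRep 1)) := by
  have q12 : δ * e1 ≠ δ * e2 := fun h => p12 (mul_left_cancel₀ hδ0 h)
  have q13 : δ * e1 ≠ δ * e3 := fun h => p13 (mul_left_cancel₀ hδ0 h)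
  have q23 : δ * e2 ≠ δ * e3 := fun h => p23 (mul_left_cancel₀ hδ0 h)
  obtain ⟨c, hc, h⟩ := addSub_sym2x q12 q13 q23 P Q
  refine ⟨c / δ ^ 2, div_ne_zero hc (pow_ne_zero _ hδ0), ?_⟩
  have hs : P.sym2x Q = ![P.xRep 0 * Q.xRep 0, P.xRep 0 * Q.xRep 1 + P.xRep 1 * Q.xRep 0,
      P.xRep 1 * Q.xRep 1] := rfl
  have hs' : (P + Q).sym2x (P - Q) = ![(P + Q).xRep 0 * (P - Q).xRep 0,
      (P + Q).xRep 0 * (P - Q).xRep 1 + (P + Q).xRep 1 * (P - Q).xRep 0,
      (P + Q).xRep 1 * (P - Q).xRep 1] := rfl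
  rw [hs, eval_addSub, hs'] at h
  have h0 := congrFun h 0
  have h1 := congrFun h 1
  have h2 := congrFun h 2
  simp only [Matrix.cons_val_zero, Matrix.cons_val_one, Matrix.cons_val, Pi.smul_apply,
    smul_eq_mul] at h0 h1 h2
  intro e he
  simp only [Set.mem_insert_iff, Set.mem_singleton_iff] at he
  rcases he with rfl | rfl | rfl
  · field_simp
    linear_combination h0 + (δ * e) * h1 + (δ * e) ^ 2 * h2
  · field_simp
    linear_combination h0 + (δ * e) * h1 + (δ * e) ^ 2 * h2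
  · field_simp
    linear_combination h0 + (δ * e) * h1 + (δ * e) ^ 2 * h2

/-- the parallelogram law with an explicit constant -/
theorem par_glob [CharZero K] [DecidableEq K] [DecidableEq F] (φ : K →+* F) {e1 e2 e3 δ : K} (p12 : e1 ≠ e2)
    (p13 : e1 ≠ e3) (p23 : e2 ≠ e3) (hδ0 : δ ≠ 0) (P Q : Pt (δ * e1) (δ * e2) (δ * e3)) :
    |HH φ δ (P + Q) + HH φ δ (P - Q) - 2 * (HH φ δ P + HH φ δ Q)| ≤
      30 * (∑ z ∈ ({φ e1, φ e2, φ e3, φ e1 - φ e2, φ e1 - φ e3, φ e2 - φ e3, 2} : Finset F),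
        2 * logHeight₁ z + totalWeight F * Real.log 2) := by
  set E : Finset F := {φ e1, φ e2, φ e3, φ e1 - φ e2, φ e1 - φ e3, φ e2 - φ e3, 2} with hE
  obtain ⟨κ, hκ, hrel⟩ := rel p12 p13 p23 hδ0 P Q
  have hκ' : φ κ ≠ 0 := (map_ne_zero φ).2 hκ
  set m : Pt (δ * e1) (δ * e2) (δ * e3) → AbsoluteValue F ℝ → ℝ := fun P v =>
    Real.log (max (v (φ (P.xRep 0 / δ))) (v (φ (P.xRep 1)))) with hm
  have hmF : ∀ P, FS (m P) ∧ gs (m P) = HH φ δ P := fun P => mfun (rep_cases φ hδ0 P)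
  have main : ∀ (v : AbsoluteValue F ℝ) (k : ℝ), 1 ≤ k →
      (∀ x y, v (x + y) ≤ k * max (v x) (v y)) →
      Real.log (v (φ κ)) + (m (P + Q) v + m (P - Q) v) ≤
        30 * (Real.log k + WE E v) + 2 * (m P v + m Q v) ∧
      2 * (m P v + m Q v) ≤ 30 * (Real.log k + WE E v) +
        (Real.log (v (φ κ)) + (m (P + Q) v + m (P - Q) v)) := by
    intro v k hk hadd
    have hk0 : 0 < k := by linarith
    obtain ⟨D, hD⟩ : ∃ D, D = k * Real.exp (WE E v) := ⟨_, rfl⟩
    have hkD : k ≤ D := by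
      calc k = k * 1 := (mul_one k).symm
        _ ≤ _ := by
          rw [hD]
          gcongr
          exact Real.one_le_exp (WE_nonneg E v)
    have hD1 : 1 ≤ D := hk.trans hkD
    have hD0 : 0 < D := by linarith
    have hlD : Real.log D = Real.log k + WE E v := by
      rw [hD, Real.log_mul hk0.ne' (Real.exp_pos _).ne', Real.log_exp]
    have haddD : ∀ x y, v (x + y) ≤ D * max (v x) (v y) := fun x y =>
      (hadd x y).trans (by
        have := (v.nonneg x).trans (le_max_left (v x) (v y))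
        gcongr)
    have hb : ∀ z ∈ E, v z ≤ D ∧ v z⁻¹ ≤ D := fun z hz => by rw [hD]; exact le_WE hk hz
    have n12 : φ e1 - φ e2 ≠ 0 := sub_ne_zero.2 fun h => p12 (φ.injective h)
    have n13 : φ e1 - φ e3 ≠ 0 := sub_ne_zero.2 fun h => p13 (φ.injective h)
    have n23 : φ e2 - φ e3 ≠ 0 := sub_ne_zero.2 fun h => p23 (φ.injective h)
    have hl := par_local hD1 haddD (hb (φ e1) (by simp [hE])).1 (hb (φ e2) (by simp [hE])).1
      (hb (φ e3) (by simp [hE])).1 n12 n13 n23 (hb (φ e1 - φ e2) (by simp [hE])).2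
      (hb (φ e1 - φ e3) (by simp [hE])).2 (hb (φ e2 - φ e3) (by simp [hE])).2
      (two_ne_zero) (hb 2 (by simp [hE])).2
      (x1 := φ (P.xRep 0 / δ)) (z1 := φ (P.xRep 1)) (x2 := φ (Q.xRep 0 / δ)) (z2 := φ (Q.xRep 1))
      (x3 := φ ((P + Q).xRep 0 / δ)) (z3 := φ ((P + Q).xRep 1))
      (x4 := φ ((P - Q).xRep 0 / δ)) (z4 := φ ((P - Q).xRep 1)) (κ := φ κ) (by
        intro e he
        obtain ⟨e', he', rfl⟩ : ∃ e' ∈ ({e1, e2, e3} : Set K), φ e' = e := by
          simp only [Set.mem_insert_iff, Set.mem_singleton_iff] at he ⊢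
          rcases he with rfl | rfl | rfl
          · exact ⟨e1, Or.inl rfl, rfl⟩
          · exact ⟨e2, Or.inr (Or.inl rfl), rfl⟩
          · exact ⟨e3, Or.inr (Or.inr rfl), rfl⟩
        have := congrArg φ (hrel e' he')
        simp only [map_mul, map_add, map_sub, map_pow, map_neg, map_ofNat] at this ⊢
        exact this)
    have g1 := rep_pos φ hδ0 P v
    have g2 := rep_pos φ hδ0 Q v
    have g3 := rep_pos φ hδ0 (P + Q) v
    have g4 := rep_pos φ hδ0 (P - Q) v
    have g5 := v.pos hκ'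
    obtain ⟨l1, l2⟩ := hl
    have l1' := Real.log_le_log (by positivity) l1
    have l2' := Real.log_le_log (by positivity) l2
    rw [Real.log_mul (by positivity) (by positivity), Real.log_mul (by positivity) (by positivity),
      Real.log_mul (by positivity) (by positivity), Real.log_pow, Real.log_pow,
      Real.log_mul (by positivity) (by positivity), hlD] at l1'
    rw [Real.log_mul (by positivity) (by positivity), Real.log_mul (by positivity) (by positivity),
      Real.log_mul (by positivity) (by positivity), Real.log_pow, Real.log_pow,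
      Real.log_mul (by positivity) (by positivity), hlD] at l2'
    push_cast at l1' l2'
    exact ⟨l1', l2'⟩
  obtain ⟨F1, G1⟩ := hmF (P + Q)
  obtain ⟨F2, G2⟩ := hmF (P - Q)
  obtain ⟨F3, G3⟩ := hmF P
  obtain ⟨F4, G4⟩ := hmF Q
  obtain ⟨F5, G5⟩ := FS_WE E
  have F6 := FS_log hκ'
  have F12 := F1.add F2
  have F34 := (F3.add F4).const_mul 2
  have FW := F5.const_mul 30
  have arch : ∀ v : AbsoluteValue F ℝ, ∀ x y, v (x + y) ≤ 2 * max (v x) (v y) := by
    intro v x y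
    refine (v.add_le x y).trans ?_
    have := le_max_left (v x) (v y)
    have := le_max_right (v x) (v y)
    linarith
  have na : ∀ v ∈ (nonarchAbsVal : Set (AbsoluteValue F ℝ)), ∀ x y,
      v (x + y) ≤ 1 * max (v x) (v y) := by
    intro v hv x y
    rw [one_mul]
    exact isNonarchimedean v hv x y
  have u1 := gs_le (F6.add F12) (FW.add F34) (30 * Real.log 2) (by
      intro v _
      have := (main v 2 (by norm_num) (arch v)).1
      linarith) (by
      intro v hv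
      have := (main v 1 le_rfl (na v hv)).1
      rw [Real.log_one, zero_add] at this
      exact this)
  have u2 := gs_le F34 (FW.add (F6.add F12)) (30 * Real.log 2) (by
      intro v _
      have := (main v 2 (by norm_num) (arch v)).2
      linarith) (by
      intro v hv
      have := (main v 1 le_rfl (na v hv)).2
      rw [Real.log_one, zero_add] at this
      exact this)
  rw [gs_add F6 F12, gs_add F1 F2, gs_add FW F34, gs_const_mul _ (F3.add F4), gs_add F3 F4,
    gs_const_mul _ F5, gs_log hκ', G1, G2, G3, G4, G5] at u1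
  rw [gs_add FW (F6.add F12), gs_add F6 F12, gs_add F1 F2, gs_const_mul _ (F3.add F4),
    gs_add F3 F4, gs_const_mul _ F5, gs_log hκ', G1, G2, G3, G4, G5] at u2
  rw [abs_le]
  constructor <;> linarith

end glob

/-- the canonical height, with an explicit constant -/
theorem canon' {A : Type} [AddCommGroup A] (h : A → ℝ) (C : ℝ) (h0 : ∀ P, 0 ≤ h P) (hz : h 0 = 0)
    (hC : ∀ P Q, |h (P + Q) + h (P - Q) - 2 * (h P + h Q)| ≤ C) :
    ∃ q : A → ℝ, (∀ P, |q P - h P| ≤ C) ∧ (∀ P, 0 ≤ q P) ∧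
      ∀ P Q, q (P + Q) + q (P - Q) = 2 * (q P + q Q) := by
  obtain ⟨q, C', hq1, hq2, hq3⟩ := canon h C h0 hC
  refine ⟨q, ?_, hq2, hq3⟩
  have hC0 : 0 ≤ C := (abs_nonneg _).trans (hC 0 0)
  -- `q (2 P) = 4 q P`
  have q0 : q 0 = 0 := by
    have := hq3 0 0
    rw [add_zero, sub_zero] at this
    linarith
  have qd : ∀ P, q (P + P) = 4 * q P := by
    intro P
    have := hq3 P P
    rw [sub_self, q0] at this
    linarith
  have hd : ∀ P, |h (P + P) - 4 * h P| ≤ C := by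
    intro P
    have := hC P P
    rw [sub_self, hz] at this
    have e : h (P + P) + 0 - 2 * (h P + h P) = h (P + P) - 4 * h P := by ring
    rwa [e] at this
  -- the supremum of the differences
  by_contra hcon
  push Not at hcon
  obtain ⟨P, hP⟩ := hcon
  have step : ∀ P : A, ∀ B : ℝ, C + B ≤ |q P - h P| → C + 4 * B ≤ |q (P + P) - h (P + P)| := by
    intro P B hB
    have h1 : 4 * (q P - h P) = (q (P + P) - h (P + P)) + (h (P + P) - 4 * h P) := by
      rw [qd]; ring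
    have h2 : 4 * |q P - h P| ≤ |q (P + P) - h (P + P)| + C := by
      have : 4 * |q P - h P| = |4 * (q P - h P)| := by rw [abs_mul]; norm_num
      rw [this, h1]
      exact (abs_add_le _ _).trans (by have := hd P; linarith)
    linarith
  set B := |q P - h P| - C with hB
  have hBpos : 0 < B := by rw [hB]; linarith
  have key : ∀ k : ℕ, ∃ P : A, C + 4 ^ k * B ≤ |q P - h P| := by
    intro k
    induction k with
    | zero => exact ⟨P, by rw [hB]; simp⟩
    | succ k ih =>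
      obtain ⟨P, hP⟩ := ih
      refine ⟨P + P, ?_⟩
      have := step P _ hP
      rw [pow_succ]
      linarith
  obtain ⟨k, hk⟩ := pow_unbounded_of_one_lt (C' / B) (by norm_num : (1 : ℝ) < 4)
  obtain ⟨P, hP⟩ := key k
  have h1 := hq1 P
  rw [div_lt_iff₀ hBpos] at hk
  linarith

end Pool.Agent.Zk42.UV
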