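import Pool.Agent.Zk42.UG.G5
import Pool.Agent.Zk42.UV.Par2

/-! The gap principle with explicit constants, and the algebra of the twists. -/

set_option autoImplicit false

namespace Pool.Agent.Zk42.UV

open Pool.Agent.Zk42.UC Pool.Agent.Zk42.UG Finset Polynomial Pool.Agent.H437R2.Man Height
  Height.AdmissibleAbsValues

section ht

variable {L : Type} [Field L] [NumberField L]

lemma ht_root {ζ : L} {d : ℕ} (hd : 0 < d) (h : ζ ^ d = 1) : logHeight₁ ζ = 0 := by
  have h1 : logHeight₁ (ζ ^ d) = d * logHeight₁ ζ := logHeight₁_pow ζ d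
  rw [h, logHeight₁_one] at h1
  have : (d : ℝ) ≠ 0 := by exact_mod_cast hd.ne'
  rcases mul_eq_zero.1 h1.symm with h2 | h2
  · exact absurd h2 this
  · exact h2

lemma ht_root_sub {ζ ζ' : L} {d : ℕ} (hd : 0 < d) (h : ζ ^ d = 1) (h' : ζ' ^ d = 1) :
    logHeight₁ (ζ - ζ') ≤ totalWeight L * Real.log 2 := by
  have := logHeight₁_sub_le ζ ζ'
  rw [ht_root hd h, ht_root hd h'] at this
  linarith

lemma ht_two : logHeight₁ (2 : L) ≤ totalWeight L * Real.log 2 := by
  have := logHeight₁_add_le (1 : L) 1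
  rw [one_add_one_eq_two, logHeight₁_one] at this
  linarith

variable [DecidableEq L]

lemma gs_WW_le {d : ℕ} (hd : 0 < d) {μ : L} (hμ : IsPrimitiveRoot μ d) :
    gs (WW (L := L) d) ≤ (d ^ 2 + 1 : ℕ) * (2 * (totalWeight L * Real.log 2)) := by
  have h2 : gs (WW (L := L) d) = ∑ z ∈ EE L d, gs (fun v => lx z v + lx z⁻¹ v) :=
    (FS_sum (EE L d) (fun z v => lx z v + lx z⁻¹ v) fun z _ => (FS_lx z).add (FS_lx z⁻¹)).2
  rw [h2]
  have h3 : ∀ z ∈ EE L d, gs (fun v => lx z v + lx z⁻¹ v) ≤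
      2 * (totalWeight L * Real.log 2) := by
    intro z hz
    rw [gs_add (FS_lx z) (FS_lx z⁻¹), gs_lx, gs_lx, logHeight₁_inv]
    have : logHeight₁ z ≤ totalWeight L * Real.log 2 := by
      unfold EE at hz
      rw [mem_insert, mem_image] at hz
      rcases hz with rfl | ⟨p, hp, rfl⟩
      · exact ht_two
      · rw [mem_product] at hp
        exact ht_root_sub hd ((UC.mem_roots hd).1 hp.1) ((UC.mem_roots hd).1 hp.2)
    linarith
  have h4 := sum_le_card_nsmul _ _ _ h3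
  refine h4.trans ?_
  rw [nsmul_eq_mul]
  have h5 : (EE L d).card ≤ d ^ 2 + 1 := by
    unfold EE
    refine (card_insert_le _ _).trans (Nat.add_le_add_right ?_ 1)
    refine card_image_le.trans ?_
    rw [card_product, hμ.card_nthRootsFinset, pow_two]
  have h6 : (0 : ℝ) ≤ 2 * (totalWeight L * Real.log 2) := by positivity
  exact mul_le_mul_of_nonneg_right (by exact_mod_cast h5) h6

/-- the gap principle, with the constant -/
theorem gap' {d : ℕ} {μ : L} (hμ : IsPrimitiveRoot μ d) (hd : 2 ≤ d)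
    {z₁ z₂ z₃ z₄ : L} (hz₁ : z₁ ^ d = 1) (hz₂ : z₂ ^ d = 1) (hz₃ : z₃ ^ d = 1) (hz₄ : z₄ ^ d = 1)
    (n12 : z₁ ≠ z₂) (n13 : z₁ ≠ z₃) (n14 : z₁ ≠ z₄) (n23 : z₂ ≠ z₃) (n24 : z₂ ≠ z₄)
    (n34 : z₃ ≠ z₄) (Y : Finset L) (hY : 2 * d < Y.card) (y : L → L)
    (hy : ∀ t ∈ Y, y t ^ 2 = f4 z₁ z₂ z₃ z₄ t) (a b w : L) (hw : PP (fu a b d) w)
    (hYw : ∀ t ∈ Y, ∃ u : L, PP (fu a b d) u ∧ t = u / w) :
      (1 / d : ℝ) * logHeight₁ (a * b ^ (d - 1)) ≤
        (2 * d + 59 : ℕ) * ((2 * (d ^ 2 + 1) + 1 : ℕ) * (totalWeight L * Real.log 2)) +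
        ∑ p ∈ Y.offDiag, logHeight₁ (G4 z₁ z₂ z₃ z₄ p.1 (y p.1) p.2 (y p.2)) := by
  have main : ∀ (v : AbsoluteValue L ℝ) (k : ℝ), 1 ≤ k →
      (∀ x y, v (x + y) ≤ k * max (v x) (v y)) →
      (1 / d : ℝ) * lx (a * b ^ (d - 1)) v ≤ (2 * d + 59 : ℕ) * (Real.log k + WW d v) +
      ∑ p ∈ Y.offDiag, lx (G4 z₁ z₂ z₃ z₄ p.1 (y p.1) p.2 (y p.2)) v := by
    intro v k hk hadd
    have hk0 : 0 < k := by linarith
    have e : Real.log (k * Real.exp (WW d v)) = Real.log k + WW d v := by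
      rw [Real.log_mul hk0.ne' (Real.exp_pos _).ne', Real.log_exp]
    rw [← e]
    have hin : ∀ ζ ζ' : L, ζ ^ d = 1 → ζ' ^ d = 1 → ζ - ζ' ∈ EE L d := by
      intro ζ ζ' h h'
      unfold EE
      refine mem_insert_of_mem (mem_image.2 ⟨(ζ, ζ'), mem_product.2
        ⟨(UC.mem_roots (by omega)).2 h, (UC.mem_roots (by omega)).2 h'⟩, rfl⟩)
    refine local_log hk ?_ hadd hμ hd ?_ ?_ ?_ hz₁ hz₂ hz₃ hz₄ n12 n13 n14 n23 n24 n34 hY hy hw hYw
    · calc k = k * 1 := (mul_one k).symm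
        _ ≤ _ := by
          gcongr
          exact Real.one_le_exp (WW_nonneg d v)
    · exact (le_DD hk (mem_insert_self _ _)).2 two_ne_zero
    · intro ζ ζ' h h' hne
      exact (le_DD hk (hin ζ ζ' h h')).2 (sub_ne_zero.2 hne)
    · intro ζ ζ' h h'
      exact (le_DD hk (hin ζ ζ' h h')).1
  obtain ⟨F1, G1⟩ := FS_sum Y.offDiag
    (fun p v => lx (G4 z₁ z₂ z₃ z₄ p.1 (y p.1) p.2 (y p.2)) v) (fun p _ => FS_lx _)
  have F2 := (FS_WW (L := L) d).const_mul (2 * d + 59 : ℕ)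
  have F3 := (FS_lx (a * b ^ (d - 1))).const_mul (1 / d : ℝ)
  have key := gs_le F3 (F2.add F1) ((2 * d + 59 : ℕ) * Real.log 2) ?_ ?_
  · rw [gs_const_mul _ (FS_lx _), gs_add F2 F1, gs_const_mul _ (FS_WW d), gs_lx, G1] at key
    simp only [gs_lx] at key
    have h1 := gs_WW_le (L := L) (d := d) (by omega) hμ
    have h2 : ((2 * d + 59 : ℕ) : ℝ) * gs (WW (L := L) d) ≤ (2 * d + 59 : ℕ) *
        ((d ^ 2 + 1 : ℕ) * (2 * (totalWeight L * Real.log 2))) := by gcongr
    have h3 : ((2 * (d ^ 2 + 1) + 1 : ℕ) : ℝ) = 2 * ((d ^ 2 + 1 : ℕ) : ℝ) + 1 := by push_cast; ring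
    rw [h3]
    linarith
  · intro v hv
    have := main v 2 (by norm_num) (fun x y => by
      refine (v.add_le x y).trans ?_
      have := le_max_left (v x) (v y)
      have := le_max_right (v x) (v y)
      linarith)
    rw [mul_add] at this
    linarith
  · intro v hv
    have := main v 1 le_rfl (fun x y => by
      rw [one_mul]
      exact isNonarchimedean v hv x y)
    rw [Real.log_one, zero_add] at this
    exact this

omit [DecidableEq L] in
/-- the height of the ratios, with the constant -/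
theorem height_ratio' {d : ℕ} (hd : 2 ≤ d) (a b u w : L) (ha : a ≠ 0) (hw0 : w ≠ 0)
    (hu : PP (fu a b d) u) (hw : PP (fu a b d) w) :
      ((d * (d - 1) : ℕ) : ℝ) * logHeight₁ (u / w) ≤ logHeight₁ (a * b ^ (d - 1)) +
        d * (totalWeight L * Real.log 2) := by
  have main : ∀ (v : AbsoluteValue L ℝ) (k : ℝ), 1 ≤ k →
      (∀ x y, v (x + y) ≤ k * max (v x) (v y)) →
      ((d * (d - 1) : ℕ) : ℝ) * Real.log (max (v u) (v w)) + d * Real.log (v a) ≤
        lx (a * b ^ (d - 1)) v + d * Real.log k := by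
    intro v k hk hadd
    have hk0 : 0 < k := by linarith
    have hva : 0 < v a := v.pos ha
    have hvw : 0 < v w := v.pos hw0
    have hm : 0 < max (v u) (v w) := lt_of_lt_of_le hvw (le_max_right _ _)
    have h1 : max (v u) (v w) ^ (d * (d - 1)) * v a ^ d ≤
        k ^ d * max (v (a * b ^ (d - 1))) 1 := by
      rcases max_choice (v u) (v w) with h | h <;> rw [h]
      · exact hbound hk hadd hd hu
      · exact hbound hk hadd hd hw
    have h2 := Real.log_le_log (by positivity) h1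
    have h3 : (0 : ℝ) < max (v (a * b ^ (d - 1))) 1 := lt_of_lt_of_le one_pos (le_max_right _ _)
    rw [Real.log_mul (by positivity) (by positivity), Real.log_mul (by positivity) h3.ne',
      Real.log_pow, Real.log_pow, Real.log_pow] at h2
    unfold lx
    linarith
  obtain ⟨F1, G1⟩ := gs_pair (x := u) hw0 (fun v => Real.log (max (v u) (v w))) (fun v => rfl)
  have F2 := FS_log ha
  have key := gs_le ((F1.const_mul ((d * (d - 1) : ℕ) : ℝ)).add (F2.const_mul (d : ℝ)))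
    (FS_lx (a * b ^ (d - 1))) (d * Real.log 2) ?_ ?_
  · rw [gs_add (F1.const_mul _) (F2.const_mul _), gs_const_mul _ F1, gs_const_mul _ F2,
      gs_log ha, gs_lx, G1] at key
    linarith
  · intro v hv
    exact main v 2 (by norm_num) (fun x y => by
      refine (v.add_le x y).trans ?_
      have := le_max_left (v x) (v y)
      have := le_max_right (v x) (v y)
      linarith)
  · intro v hv
    have := main v 1 le_rfl (fun x y => by
      rw [one_mul]
      exact isNonarchimedean v hv x y)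
    rw [Real.log_one, mul_zero, add_zero] at this
    exact this

end ht

section curve

variable {L : Type} [Field L]

/-- the Weierstrass point of the twist -/
lemma w_eqn' {a b c s y δ : L} (ha : a ≠ 0) (hb : b ≠ 0) (hc : c ≠ 0) (hs : s ≠ 0)
    (hy : δ * y ^ 2 = cf a b c s) :
    (δ ^ 2 * -(y / (a * b * c) ^ 2 / s ^ 2)) ^ 2 =
      (δ * (-(1 / (a * b * c)) / s) + δ * (1 / (a * (a * b * c)))) *
      (δ * (-(1 / (a * b * c)) / s) + δ * (1 / (b * (a * b * c)))) *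
      (δ * (-(1 / (a * b * c)) / s) + δ * (1 / (c * (a * b * c)))) := by
  have e : (δ ^ 2 * -(y / (a * b * c) ^ 2 / s ^ 2)) ^ 2 =
      δ ^ 3 * ((δ * y ^ 2) / ((a * b * c) ^ 4 * s ^ 4)) := by
    field_simp
  rw [e, hy]
  unfold cf
  field_simp
  ring

/-- the coordinate of the difference on the twist -/
def tG (δ a b c s y t z : L) : L := (cN a b c s t + 2 * (δ * y * z)) / (s - t) ^ 2

lemma w_diff' {a b c s y t z δ : L} (hδ : δ ≠ 0) (ha : a ≠ 0) (hb : b ≠ 0) (hc : c ≠ 0)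
    (hs : s ≠ 0) (ht : t ≠ 0)
    (hst : s ≠ t) (hy : δ * y ^ 2 = cf a b c s) (hz : δ * z ^ 2 = cf a b c t) :
    ((δ ^ 2 * -(y / (a * b * c) ^ 2 / s ^ 2) + δ ^ 2 * -(z / (a * b * c) ^ 2 / t ^ 2)) /
      (δ * (-(1 / (a * b * c)) / s) - δ * (-(1 / (a * b * c)) / t))) ^ 2 -
      (δ * (1 / (a * (a * b * c))) + δ * (1 / (b * (a * b * c))) + δ * (1 / (c * (a * b * c)))) -
      δ * (-(1 / (a * b * c)) / s) - δ * (-(1 / (a * b * c)) / t) =
      δ * ((1 / (a * b * c)) ^ 2 * tG δ a b c s y t z) := by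
  have hst' : s - t ≠ 0 := sub_ne_zero.2 hst
  have e1 : δ * (-(1 / (a * b * c)) / s) - δ * (-(1 / (a * b * c)) / t) =
      δ * (s - t) / (a * b * c * s * t) := by
    field_simp
    ring
  have e2 : (δ ^ 2 * -(y / (a * b * c) ^ 2 / s ^ 2) + δ ^ 2 * -(z / (a * b * c) ^ 2 / t ^ 2)) ^ 2 =
      δ ^ 3 * (cf a b c s * t ^ 4 + cf a b c t * s ^ 4 + 2 * (δ * y * z) * (s * t) ^ 2) /
        ((a * b * c) ^ 4 * (s * t) ^ 4) := by
    rw [← hy, ← hz]
    field_simp
    ring
  rw [e1, div_pow, e2]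
  unfold tG cN cf
  field_simp
  ring

/-- comparison of the two forms over a field where `δ` is a square -/
lemma tG_map {F : Type} [Field F] (φ : L →+* F) {δ : L} {θ : F} (hθ : θ ^ 2 = φ δ)
    (a b c s y t z : L) :
    φ (tG δ a b c s y t z) = cG (φ a) (φ b) (φ c) (φ s) (θ * φ y) (φ t) (θ * φ z) := by
  have e : θ * φ y * (θ * φ z) = φ δ * φ y * φ z := by rw [← hθ]; ring
  unfold tG cG cN
  rw [e]
  simp only [map_div₀, map_add, map_sub, map_mul, map_pow, map_ofNat]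

end curve

end Pool.Agent.Zk42.UV
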