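import Pool.Agent.Zk42.UV.Ratio

/-! The bound for the number of the preperiodic points, uniformly in the field. -/

set_option autoImplicit false

namespace Pool.Agent.Zk42.UV

open Pool.Agent.Zk42.UC Pool.Agent.Zk42.UG Finset Polynomial Module IsDedekindDomain NumberField
open scoped WithZero

/-- the classes may be represented by elements with even valuations -/
lemma good_filter {L : Type} [Field L] [NumberField L] {S : Set (HeightOneSpectrum (𝓞 L))}
    {T : Finset L} (hT : Good S 2 T) :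
    ∃ T' ⊆ T, Good S 2 T' ∧ ∀ t ∈ T', ∀ v ∉ S, ∃ g : ℤᵐ⁰, v.valuation L t = g ^ 2 := by
  classical
  refine ⟨T.filter fun t => ∀ v ∉ S, ∃ g : ℤᵐ⁰, v.valuation L t = g ^ 2, filter_subset _ _, ?_,
    fun t ht => (mem_filter.1 ht).2⟩
  intro a ha hv
  obtain ⟨t, ht, b, hb, e⟩ := hT a ha hv
  refine ⟨t, mem_filter.2 ⟨ht, fun v hvS => ?_⟩, b, hb, e⟩
  obtain ⟨g, hg⟩ := hv v hvS
  have hvb : v.valuation L b ≠ 0 := (Valuation.ne_zero_iff _).2 hb
  refine ⟨g / v.valuation L b, ?_⟩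
  rw [e, map_mul, map_pow] at hg
  rw [div_pow, ← hg, mul_div_cancel_right₀ _ (pow_ne_zero _ hvb)]

/-- the number of the preperiodic points whose ratio with `w` is in the set of the ratios -/
theorem rset_unif {d : ℕ} (hd : 5 ≤ d) (D m₀ : ℕ) : ∃ N : ℕ, ∀ (L : Type) [Field L]
    [NumberField L] (μ : L), IsPrimitiveRoot μ d → finrank ℚ L ≤ D →
    ∀ S : Set (HeightOneSpectrum (𝓞 L)), (∀ v ∉ S, v.valuation L (d : L) = 1) →
    ∀ T : Finset L, (∀ t ∈ T, t ≠ 0) → Good S 2 T →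
    (∀ t ∈ T, ∀ v ∉ S, ∃ g : ℤᵐ⁰, v.valuation L t = g ^ 2) → T.card ≤ m₀ →
    ∀ a b w : L, a ≠ 0 → w ≠ 0 → PP (fu a b d) w → ∀ Y : Finset L,
      (∀ u ∈ Y, PP (fu a b d) u ∧ u / w ∈ Rset L d 2 T) → Y.card ≤ N := by
  classical
  obtain ⟨N, hN⟩ := ratio_unif hd D m₀
  refine ⟨m₀ ^ 3 * N, ?_⟩
  intro L _ _ μ hμ hLD S hdS T hT0 hT hTe hTc a b w ha hw0 hw Y hY
  have hμd : μ ^ d = 1 := hμ.pow_eq_one
  have hne : ∀ i : ℕ, 0 < i → i < d → μ ^ i ≠ 1 := fun i hi hid h => by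
    have := hμ.pow_inj hid (by omega : 0 < d) (by rw [h, pow_zero])
    omega
  have n1 : μ ≠ 1 := by simpa using hne 1 (by omega) (by omega)
  have p : ∀ i : ℕ, (μ ^ i) ^ d = 1 := fun i => by rw [← pow_mul, mul_comm, pow_mul, hμd, one_pow]
  have hcl : ∀ u ∈ Y, ∃ c ∈ T ×ˢ T ×ˢ T, ∃ y : L,
      (c.1 * c.2.1 * c.2.2) * y ^ 2 = f4 μ (μ ^ 2) (μ ^ 3) (μ ^ 4) (u / w) := by
    intro u hu
    obtain ⟨-, h1, h2⟩ := hY u hu
    obtain ⟨τ₁, hτ₁, x₁, -, e₁⟩ := h2 μ (μ ^ 4) hμd (p 4) n1 (hne 4 (by omega) (by omega))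
    obtain ⟨τ₂, hτ₂, x₂, -, e₂⟩ := h2 (μ ^ 2) (μ ^ 4) (p 2) (p 4) (hne 2 (by omega) (by omega))
      (hne 4 (by omega) (by omega))
    obtain ⟨τ₃, hτ₃, x₃, -, e₃⟩ := h2 (μ ^ 3) (μ ^ 4) (p 3) (p 4) (hne 3 (by omega) (by omega))
      (hne 4 (by omega) (by omega))
    refine ⟨(τ₁, τ₂, τ₃), ?_, x₁ * x₂ * x₃ * (u / w - μ ^ 4) ^ 2, ?_⟩
    · simp only [mem_product]
      exact ⟨hτ₁, hτ₂, hτ₃⟩
    · unfold f4 cf
      have s₁ : u / w - μ ^ 4 - (μ - μ ^ 4) = u / w - μ := by ring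
      have s₂ : u / w - μ ^ 4 - (μ ^ 2 - μ ^ 4) = u / w - μ ^ 2 := by ring
      have s₃ : u / w - μ ^ 4 - (μ ^ 3 - μ ^ 4) = u / w - μ ^ 3 := by ring
      rw [s₁, s₂, s₃, e₁, e₂, e₃]
      ring
  choose! c hc1 hc2 using hcl
  have hfib : ∀ x ∈ T ×ˢ T ×ˢ T, (Y.filter fun u => c u = x).card ≤ N := by
    intro x hx
    simp only [mem_product] at hx
    have hinj : Set.InjOn (fun u : L => u / w) ((Y.filter fun u => c u = x : Finset L) : Set L) :=
      fun u _ u' _ h => (div_left_inj' hw0).1 h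
    rw [← card_image_of_injOn hinj]
    refine hN L μ hμ hLD S hdS T hT0 hT hTc (x.1 * x.2.1 * x.2.2)
      (mul_ne_zero (mul_ne_zero (hT0 _ hx.1) (hT0 _ hx.2.1)) (hT0 _ hx.2.2)) ?_ a b w ha hw0 hw _ ?_
    · intro v hv
      obtain ⟨g₁, h₁⟩ := hTe _ hx.1 v hv
      obtain ⟨g₂, h₂⟩ := hTe _ hx.2.1 v hv
      obtain ⟨g₃, h₃⟩ := hTe _ hx.2.2 v hv
      exact ⟨g₁ * g₂ * g₃, by rw [map_mul, map_mul, h₁, h₂, h₃, mul_pow, mul_pow]⟩
    · intro t ht
      obtain ⟨u, hu, rfl⟩ := mem_image.1 ht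
      rw [mem_filter] at hu
      obtain ⟨hPu, h1, -⟩ := hY u hu.1
      refine ⟨⟨u, hPu, rfl⟩, h1, ?_⟩
      have := hc2 u hu.1
      rwa [hu.2] at this
  have h1 := card_le_mul_card_image_of_maps_to (f := c) (s := Y) (t := T ×ˢ T ×ˢ T) hc1 N
    (fun x hx => hfib x hx)
  refine h1.trans ?_
  rw [card_product, card_product, Nat.mul_comm]
  refine Nat.mul_le_mul_right _ ?_
  calc T.card * (T.card * T.card) = T.card ^ 3 := by ring
    _ ≤ m₀ ^ 3 := Nat.pow_le_pow_left hTc 3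

section count

variable {L : Type} [Field L] [NumberField L] [DecidableEq L] {d n : ℕ} {μ : L}

/-- uniform bound over a field containing the roots of unity, with the constant -/
theorem count_L' (S : Set (HeightOneSpectrum (𝓞 L))) (hdS : ∀ v ∉ S, v.valuation L (d : L) = 1)
    {T : Finset L} (hT : Good S n T) (hμ : IsPrimitiveRoot μ d) (hd : 2 ≤ d) {N : ℕ}
    (hN : ∀ a b w : L, a ≠ 0 → w ≠ 0 → PP (fu a b d) w → ∀ Y : Finset L,
      (∀ u ∈ Y, PP (fu a b d) u ∧ u / w ∈ Rset L d n T) → Y.card ≤ N) (a b : L) (ha : a ≠ 0)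
    (hC : Cond S a b d n) (X : Finset L) (hX : ∀ x ∈ X, PP (fu a b d) x) :
    X.card ≤ 1 + ((N + 1) + d * (N + 1) + (N + 1) * N + (N + 1) * (N * d)) := by
  by_cases h0 : ∃ y : L, Per (fu a b d) y ∧ y ≠ 0
  swap
  · push Not at h0
    have : X ⊆ {0} := by
      intro x hx
      rw [mem_singleton]
      rcases cases_pp hdS hT hμ hd ha hC (hX x hx) with h | ⟨w, hw, hw0, -⟩
      · exact h0 x h
      · exact absurd (h0 w hw) hw0
    have h1 := card_le_card this
    rw [card_singleton] at h1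
    exact h1.trans (Nat.le_add_right _ _)
  obtain ⟨y0, hy0, hy00⟩ := h0
  have hZ : ∀ w : L, ∃ Z : Finset L, (w ≠ 0 → PP (fu a b d) w → ∀ u, PP (fu a b d) u →
      u / w ∈ Rset L d n T → u ∈ Z) ∧ Z.card ≤ N := by
    intro w
    by_cases hw : w ≠ 0 ∧ PP (fu a b d) w
    · obtain ⟨Z, h1, h2⟩ := finset_of_bound
        (fun u => PP (fu a b d) u ∧ u / w ∈ Rset L d n T) N (hN a b w ha hw.1 hw.2)
      exact ⟨Z, fun _ _ u hu hR => h1 u ⟨hu, hR⟩, h2⟩
    · exact ⟨∅, fun h1 h2 => absurd ⟨h1, h2⟩ hw, by simp⟩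
  choose Rf hRf hRc using hZ
  set PF := insert y0 (Rf y0) with hPF
  have hPFcard : PF.card ≤ N + 1 := (card_insert_le _ _).trans (by have := hRc y0; omega)
  have hPmem : ∀ x : L, Per (fu a b d) x → x ∈ PF := by
    intro x hx
    by_cases hxy : x = y0
    · rw [hPF, hxy]; exact mem_insert_self _ _
    · rw [hPF]
      exact mem_insert_of_mem (hRf y0 hy00 hy0.pp x hx.pp
        (per_ratio hdS hT hμ hd hC hx hy0 hxy hy00))
  set A1 := (nthRootsFinset d (1 : L) ×ˢ PF).image (fun p => p.1 * p.2) with hA1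
  set A2 := PF.biUnion Rf with hA2
  set A3 := PF.biUnion (fun w => (Rf w).biUnion fun z =>
    (nthRoots d ((z - b) / a)).toFinset) with hA3
  have hsub : X ⊆ ((PF ∪ A1) ∪ A2) ∪ A3 := by
    intro x hx
    have hxP := hX x hx
    rcases cases_pp hdS hT hμ hd ha hC hxP with h | ⟨w, hw, hw0, ⟨ζ, hζ, hx'⟩ | h | h⟩
    · exact mem_union_left _ (mem_union_left _ (mem_union_left _ (hPmem x h)))
    · refine mem_union_left _ (mem_union_left _ (mem_union_right _ ?_))
      exact mem_image.2 ⟨(ζ, w), mem_product.2 ⟨(UC.mem_roots (by omega)).2 hζ, hPmem w hw⟩,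
        hx'.symm⟩
    · refine mem_union_left _ (mem_union_right _ ?_)
      exact mem_biUnion.2 ⟨w, hPmem w hw, hRf w hw0 hw.pp x hxP h⟩
    · refine mem_union_right _ ?_
      refine mem_biUnion.2 ⟨w, hPmem w hw, mem_biUnion.2 ⟨fu a b d x,
        hRf w hw0 hw.pp _ hxP.map h, ?_⟩⟩
      rw [Multiset.mem_toFinset, mem_nthRoots (by omega)]
      unfold fu
      field_simp
      ring
  have c1 : A1.card ≤ d * (N + 1) := by
    refine card_image_le.trans ?_
    rw [card_product, hμ.card_nthRootsFinset]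
    exact Nat.mul_le_mul_left _ hPFcard
  have c2 : A2.card ≤ (N + 1) * N :=
    (card_biUnion_le_card_mul _ _ N fun w _ => hRc w).trans (Nat.mul_le_mul_right _ hPFcard)
  have c3 : A3.card ≤ (N + 1) * (N * d) := by
    refine (card_biUnion_le_card_mul _ _ (N * d) fun w _ => ?_).trans
      (Nat.mul_le_mul_right _ hPFcard)
    refine (card_biUnion_le_card_mul _ _ d fun z _ => ?_).trans (Nat.mul_le_mul_right _ (hRc w))
    exact (Multiset.toFinset_card_le _).trans (card_nthRoots _ _)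
  have c4 := card_le_card hsub
  have c5 := card_union_le ((PF ∪ A1) ∪ A2) A3
  have c6 := card_union_le (PF ∪ A1) A2
  have c7 := card_union_le PF A1
  omega

end count

lemma cyclo_finrank (K : Type) [Field K] [NumberField K] (d : ℕ) [NeZero d] :
    finrank K (CyclotomicField d K) ≤ d := by
  have hμ := IsCyclotomicExtension.zeta_spec d K (CyclotomicField d K)
  rw [(hμ.powerBasis K).finrank, ← (hμ.powerBasis K).natDegree_minpoly]
  have h1 : (hμ.powerBasis K).gen ^ d = 1 := by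
    rw [IsPrimitiveRoot.powerBasis_gen]
    exact hμ.pow_eq_one
  have h2 : minpoly K (hμ.powerBasis K).gen ∣ X ^ d - C 1 := by
    apply minpoly.dvd
    rw [map_sub, map_pow, aeval_X, aeval_C, map_one, h1, sub_self]
  have h3 : (X ^ d - C 1 : K[X]) ≠ 0 := X_pow_sub_C_ne_zero (Nat.pos_of_ne_zero (NeZero.ne d)) 1
  have h4 := natDegree_le_of_dvd h2 h3
  rwa [natDegree_X_pow_sub_C] at h4

/-- the number of the primes above a finite set of primes -/
lemma above_card (K L : Type) [Field K] [NumberField K] [Field L] [NumberField L] [Algebra K L]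
    (S : Set (HeightOneSpectrum (𝓞 K))) (hS : S.Finite) :
    {w : HeightOneSpectrum (𝓞 L) | HeightOneSpectrum.under (𝓞 K) w ∈ S}.Finite ∧
    {w : HeightOneSpectrum (𝓞 L) | HeightOneSpectrum.under (𝓞 K) w ∈ S}.ncard ≤
      S.ncard * finrank K L := by
  classical
  set f : HeightOneSpectrum (𝓞 L) → Ideal (𝓞 L) := fun w => w.asIdeal with hf
  have hinj : Function.Injective f := fun w w' h => HeightOneSpectrum.ext h
  set Z : Finset (Ideal (𝓞 L)) := hS.toFinset.biUnion fun v =>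
    IsDedekindDomain.primesOverFinset v.asIdeal (𝓞 L) with hZ
  have hmem : ∀ w : HeightOneSpectrum (𝓞 L), HeightOneSpectrum.under (𝓞 K) w ∈ S → f w ∈ Z := by
    intro w hw
    rw [hZ, mem_biUnion]
    refine ⟨HeightOneSpectrum.under (𝓞 K) w, hS.mem_toFinset.2 hw, ?_⟩
    rw [IsDedekindDomain.mem_primesOverFinset_iff (HeightOneSpectrum.under (𝓞 K) w).ne_bot]
    exact ⟨w.isPrime, ⟨rfl⟩⟩
  have hfin : {w : HeightOneSpectrum (𝓞 L) | HeightOneSpectrum.under (𝓞 K) w ∈ S}.Finite := by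
    refine Set.Finite.of_finite_image ((Z : Set (Ideal (𝓞 L))).toFinite.subset ?_) hinj.injOn
    rintro _ ⟨w, hw, rfl⟩
    exact hmem w hw
  refine ⟨hfin, ?_⟩
  rw [Set.ncard_eq_toFinset_card _ hfin]
  calc hfin.toFinset.card ≤ Z.card := card_le_card_of_injOn f
        (fun w hw => hmem w (hfin.mem_toFinset.1 hw)) hinj.injOn
    _ ≤ S.ncard * finrank K L := by
      rw [Set.ncard_eq_toFinset_card _ hS]
      refine card_biUnion_le_card_mul _ _ _ fun v hv => ?_
      have := v.isMaximal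
      have : NoZeroSMulDivisors (𝓞 K) (𝓞 L) := ⟨fun {c x} h => smul_eq_zero.1 h⟩
      exact Ideal.card_primesOverFinset_le_finrank (𝓞 L) K L v.ne_bot

/-- the uniform bound -/
theorem main_unif {d : ℕ} (hd : 5 ≤ d) (D R s : ℕ) : ∃ B : ℕ, ∀ (K : Type) [Field K]
    [NumberField K], finrank ℚ K ≤ D → cl2 (CyclotomicField d K) ≤ R →
    ∀ S : Set (HeightOneSpectrum (𝓞 K)), S.Finite → S.ncard ≤ s →
    ∀ a b : K, a ≠ 0 → CondK S a b d 2 → ∀ X : Finset K, (∀ x ∈ X, PP (fu a b d) x) →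
      X.card ≤ B := by
  classical
  have hne : NeZero d := ⟨by omega⟩
  obtain ⟨N, hN⟩ := rset_unif hd (D * d) (2 ^ (s * d) * d ^ (D * d) * (R * 2 ^ (D * d)))
  refine ⟨1 + ((N + 1) + d * (N + 1) + (N + 1) * N + (N + 1) * (N * d)), ?_⟩
  intro K _ _ hKD hKR S hS hSs a b ha hC X hX
  let L := CyclotomicField d K
  have hμ : IsPrimitiveRoot (IsCyclotomicExtension.zeta d K L) d :=
    IsCyclotomicExtension.zeta_spec d K L
  have hLK : finrank K L ≤ d := cyclo_finrank K d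
  have hLD : finrank ℚ L ≤ D * d := by
    rw [← finrank_mul_finrank ℚ K L]
    exact Nat.mul_le_mul hKD hLK
  set SL : Set (HeightOneSpectrum (𝓞 L)) :=
    {w : HeightOneSpectrum (𝓞 L) | HeightOneSpectrum.under (𝓞 K) w ∈ S} ∪
      {w | w.valuation L ((d : ℕ) : L) ≠ 1} with hSL
  obtain ⟨hf1, hc1⟩ := above_card K L S hS
  obtain ⟨hf2, hc2⟩ := bad_card (K := L) d (by omega)
  have hSLfin : SL.Finite := hf1.union hf2
  have hSLc : 2 ^ SL.ncard ≤ 2 ^ (s * d) * d ^ (D * d) := by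
    refine (Nat.pow_le_pow_right (by norm_num) (Set.ncard_union_le _ _)).trans ?_
    rw [pow_add]
    refine Nat.mul_le_mul (Nat.pow_le_pow_right (by norm_num) ?_)
      (hc2.trans (Nat.pow_le_pow_right (by omega) hLD))
    exact hc1.trans (Nat.mul_le_mul hSs hLK)
  have hdS : ∀ w ∉ SL, w.valuation L ((d : ℕ) : L) = 1 := by
    intro w hw
    rw [hSL, Set.mem_union, not_or] at hw
    exact not_not.1 hw.2
  have hout : ∀ w ∉ SL, w.valuation L ((d : ℕ) : L) = 1 ∧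
      ∃ (v : HeightOneSpectrum (𝓞 K)) (e : ℕ), e ≠ 0 ∧ v ∉ S ∧
        v.valuation K ((d : ℕ) : K) = 1 ∧
        ∀ x : K, w.valuation L (algebraMap K L x) = v.valuation K x ^ e := by
    intro w hw
    have h4 := hdS w hw
    rw [hSL, Set.mem_union, not_or] at hw
    have hl : w.asIdeal.LiesOver (HeightOneSpectrum.under (𝓞 K) w).asIdeal := ⟨rfl⟩
    have hval := fun x : K => (HeightOneSpectrum.valuation_liesOver (K := K) L
      (HeightOneSpectrum.under (𝓞 K) w) w x).symm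
    have he := Ideal.IsDedekindDomain.ramificationIdx'_ne_zero_of_liesOver w.asIdeal
      (HeightOneSpectrum.under (𝓞 K) w).ne_bot
    refine ⟨h4, HeightOneSpectrum.under (𝓞 K) w, _, he, hw.1, ?_, hval⟩
    have h6 := hval ((d : ℕ) : K)
    rw [map_natCast, h4] at h6
    by_contra hne
    have h7 := pow_lt_one₀ zero_le
      (lt_of_le_of_ne (val_nat_le (HeightOneSpectrum.under (𝓞 K) w) d) hne) he
    exact absurd h6 h7.ne'
  obtain ⟨T₀, hT₀c, hT₀0, hT₀⟩ := sel_card (K := L) SL hSLfin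
  obtain ⟨T, hTsub, hT, hTe⟩ := good_filter hT₀
  have hTc : T.card ≤ 2 ^ (s * d) * d ^ (D * d) * (R * 2 ^ (D * d)) := by
    refine (card_le_card hTsub).trans (hT₀c.trans ?_)
    refine Nat.mul_le_mul hSLc ?_
    exact Nat.mul_le_mul hKR (Nat.pow_le_pow_right (by norm_num) hLD)
  have hcount := hN L _ hμ hLD SL hdS T (fun t ht => hT₀0 t (hTsub ht)) hT hTe hTc
  rcases X.eq_empty_or_nonempty with rfl | ⟨x0, hx0⟩
  · simp
  have hinj : Function.Injective (algebraMap K L) := (algebraMap K L).injective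
  have hmap := count_L' (n := 2) SL hdS (T := T) hT hμ (by omega) hcount
    (algebraMap K L a) (algebraMap K L b)
    (fun h => ha ((map_eq_zero (algebraMap K L)).1 h))
    (cond_up (by omega) hout hC (hX x0 hx0))
    (X.map ⟨algebraMap K L, hinj⟩) (by
      intro y hy
      rw [mem_map] at hy
      obtain ⟨x, hx, rfl⟩ := hy
      exact (hX x hx).up)
  rwa [card_map] at hmap

end Pool.Agent.Zk42.UV
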