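import Mathlib
import Pool.Agent.H437R2.Man.V1

/-! Northcott, uniformly over the number fields of bounded degree. -/

set_option autoImplicit false

namespace Pool.Agent.Zk42.UV

open Height Pool.Agent.H437R2.Man NumberField Module Set

lemma norm_le_height {L : Type} [Field L] [NumberField L] (ψ : L →+* ℂ) (t : L) :
    ‖ψ t‖ ≤ Real.exp (logHeight₁ t) := by
  have h1 : ‖ψ t‖ = (InfinitePlace.mk ψ).val t := rfl
  have h2 : lx t (InfinitePlace.mk ψ).val ≤ logHeight₁ t := by
    rw [← gs_lx]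
    unfold gs
    have h3 : lx t (InfinitePlace.mk ψ).val ≤
        ((AdmissibleAbsValues.archAbsVal : Multiset (AbsoluteValue L ℝ)).map (lx t)).sum := by
      rw [sum_archAbsVal_eq]
      have h5 := Finset.single_le_sum (s := Finset.univ)
        (f := fun v : InfinitePlace L => v.mult • lx t v.val)
        (fun v _ => nsmul_nonneg (lx_nonneg _ _) _) (Finset.mem_univ (InfinitePlace.mk ψ))
      refine le_trans ?_ h5
      have h6 : 1 ≤ (InfinitePlace.mk ψ).mult := (InfinitePlace.mk ψ).mult_pos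
      have h7 := lx_nonneg t (InfinitePlace.mk ψ).val
      show _ ≤ (InfinitePlace.mk ψ).mult • lx t (InfinitePlace.mk ψ).val
      rw [nsmul_eq_mul]
      have h8 : (1 : ℝ) ≤ (InfinitePlace.mk ψ).mult := by exact_mod_cast h6
      nlinarith
    have h4 : 0 ≤ ∑ᶠ v : (AdmissibleAbsValues.nonarchAbsVal : Set (AbsoluteValue L ℝ)),
        lx t v.val := finsum_nonneg fun v => lx_nonneg _ _
    linarith
  rw [h1]
  have h5 : (0 : ℝ) < max ((InfinitePlace.mk ψ).val t) 1 := lt_of_lt_of_le one_pos (le_max_right _ _)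
  calc (InfinitePlace.mk ψ).val t ≤ max ((InfinitePlace.mk ψ).val t) 1 := le_max_left _ _
    _ = Real.exp (lx t (InfinitePlace.mk ψ).val) := by
      unfold lx
      rw [Real.exp_log h5]
    _ ≤ _ := Real.exp_le_exp.2 h2

theorem northcott_unif (n : ℕ) (B : ℝ) : ∃ N : ℕ, ∀ (L : Type) [Field L] [NumberField L],
    finrank ℚ L ≤ n → ∀ Y : Finset L, (∀ t ∈ Y, logHeight₁ t ≤ B) → Y.card ≤ N := by
  classical
  set H : ℝ := Real.exp B with hH
  have hH0 : 0 < H := Real.exp_pos _
  set C : ℕ := Nat.ceil (max (H ^ 2) 1 ^ n * 2 ^ n) with hC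
  have hfin := Polynomial.bUnion_roots_finite (algebraMap ℤ ℂ) n (finite_Icc (-C : ℤ) C)
  set Z : Finset ℂ := hfin.toFinset with hZ
  refine ⟨((Z ×ˢ Finset.range (⌊H⌋₊ + 1)).image fun p : ℂ × ℕ => p.1 / (p.2 : ℂ)).card, ?_⟩
  intro L _ _ hn Y hY
  obtain ⟨ψ⟩ : Nonempty (L →+* ℂ) := inferInstance
  rw [← Finset.card_image_of_injective Y ψ.injective]
  refine Finset.card_le_card fun z hz => ?_
  obtain ⟨t, ht, rfl⟩ := Finset.mem_image.1 hz
  obtain ⟨m, hm0, hm, hint⟩ := exists_nat_le_mulHeight₁ t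
  have hmH : (m : ℝ) ≤ H := by
    refine hm.trans ?_
    rw [hH, ← Real.exp_log (lt_of_lt_of_le one_pos (one_le_mulHeight₁ t))]
    exact Real.exp_le_exp.2 (hY t ht)
  set x : L := m * t with hx
  have hb : ∀ φ : L →+* ℂ, ‖φ x‖ ≤ H ^ 2 := by
    intro φ
    rw [hx, map_mul, norm_mul, map_natCast, Complex.norm_natCast, pow_two]
    have := (norm_le_height φ t).trans (Real.exp_le_exp.2 (hY t ht))
    gcongr
  rw [Finset.mem_image]
  refine ⟨(ψ x, m), ?_, ?_⟩
  · rw [Finset.mem_product]
    refine ⟨?_, ?_⟩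
    · rw [hZ, Finite.mem_toFinset]
      simp_rw [mem_iUnion]
      have h_map_ℚ_minpoly := minpoly.isIntegrallyClosed_eq_field_fractions' ℚ hint
      refine ⟨minpoly ℤ x, ⟨?_, fun i => ?_⟩, ?_⟩
      · rw [← (minpoly.monic hint).natDegree_map (algebraMap ℤ ℚ), ← h_map_ℚ_minpoly]
        exact (minpoly.natDegree_le x).trans hn
      · rw [mem_Icc, ← abs_le, ← @Int.cast_le ℝ]
        have h1 : ((|(minpoly ℤ x).coeff i| : ℤ) : ℝ) ≤ max (H ^ 2) 1 ^ n * 2 ^ n := by
          refine (Eq.trans_le ?_ <| Embeddings.coeff_bdd_of_norm_le hb i).trans ?_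
          · rw [h_map_ℚ_minpoly, Polynomial.coeff_map, eq_intCast, Int.norm_cast_rat,
              Int.norm_eq_abs, Int.cast_abs]
          · have h2 : (1 : ℝ) ≤ max (H ^ 2) 1 := le_max_right _ _
            have h3 : (((finrank ℚ L).choose (finrank ℚ L / 2) : ℕ) : ℝ) ≤ 2 ^ n := by
              have h4 : (finrank ℚ L).choose (finrank ℚ L / 2) ≤ 2 ^ finrank ℚ L :=
                Nat.choose_le_two_pow _ _
              have h5 : 2 ^ finrank ℚ L ≤ 2 ^ n := Nat.pow_le_pow_right (by norm_num) hn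
              exact_mod_cast h4.trans h5
            gcongr
        exact h1.trans (Nat.le_ceil _)
      · rw [Finset.mem_coe, Multiset.mem_toFinset, Polynomial.mem_roots']
        refine ⟨?_, ?_⟩
        · exact ((minpoly.monic hint).map _).ne_zero
        · rw [Polynomial.IsRoot.def, Polynomial.eval_map]
          have h1 := minpoly.aeval ℤ x
          rw [Polynomial.aeval_def] at h1
          have h2 := congrArg ψ h1
          rw [Polynomial.hom_eval₂, map_zero] at h2
          rw [← h2]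
          congr 1
          exact RingHom.ext_int _ _
    · rw [Finset.mem_range]
      exact Nat.lt_succ_of_le (Nat.le_floor hmH)
  · show ψ x / (m : ℂ) = ψ t
    rw [hx, map_mul, map_natCast, mul_div_cancel_left₀]
    exact_mod_cast hm0

end Pool.Agent.Zk42.UV
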