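import Pool.Agent.Zk42.UV.Sel
import Pool.Agent.Zk42.UC.Desc
import Pool.Agent.H437R2.Man.MWWeak

/-! Complete `2`-descent for the twists, with the number of the classes. -/

set_option autoImplicit false

open WeierstrassCurve IsDedekindDomain NumberField
open scoped WithZero

namespace Pool.Agent.Zk42.UV

open Pool.Agent.H437R2.Man Pool.Agent.H437R2.Man.MW

variable {K : Type} [Field K] [NumberField K]

/-- the number of the primes at which an integer is not a unit -/
lemma bad_card (n : ℕ) (hn : n ≠ 0) :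
    {v : HeightOneSpectrum (𝓞 K) | v.valuation K ((n : ℕ) : K) ≠ 1}.Finite ∧
    2 ^ {v : HeightOneSpectrum (𝓞 K) | v.valuation K ((n : ℕ) : K) ≠ 1}.ncard ≤
      n ^ Module.finrank ℚ K := by
  classical
  have hset : {v : HeightOneSpectrum (𝓞 K) | v.valuation K ((n : ℕ) : K) ≠ 1} =
      {v : HeightOneSpectrum (𝓞 K) | v.valuation K (algebraMap (𝓞 K) K ((n : ℕ) : 𝓞 K)) ≠ 1} := by
    rw [map_natCast]
  have hn0 : ((n : ℕ) : 𝓞 K) ≠ 0 := by exact_mod_cast hn
  have hfin := UC.finite_bad K ((n : ℕ) : 𝓞 K) hn0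
  rw [← hset] at hfin
  refine ⟨hfin, ?_⟩
  rw [Set.ncard_eq_toFinset_card _ hfin]
  set s := hfin.toFinset with hs
  have h1 : ∏ v ∈ s, v.asIdeal ∣ Ideal.span {((n : ℕ) : 𝓞 K)} := by
    refine Finset.prod_dvd_of_coprime ?_ ?_
    · intro v _ w _ hvw
      exact HeightOneSpectrum.isCoprime_of_ne v w hvw
    · intro v hv
      rw [hs, hfin.mem_toFinset, Set.mem_ofPred_eq] at hv
      have h2 : v.valuation K (algebraMap (𝓞 K) K ((n : ℕ) : 𝓞 K)) ≠ 1 := by
        rw [map_natCast]; exact hv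
      rw [Ne, HeightOneSpectrum.valuation_eq_one_iff_notMem, not_not] at h2
      exact Ideal.dvd_span_singleton.2 h2
  have h2 := Ideal.absNorm_dvd_absNorm_of_le (Ideal.le_of_dvd h1)
  rw [Ideal.absNorm_span_natCast, map_prod, RingOfIntegers.rank] at h2
  refine le_trans ?_ (Nat.le_of_dvd (by positivity) h2)
  rw [← Finset.prod_const]
  refine Finset.prod_le_prod' fun v _ => ?_
  have h3 : Ideal.absNorm v.asIdeal ≠ 0 := by
    rw [Ne, Ideal.absNorm_eq_zero_iff]
    exact v.ne_bot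
  have h4 : Ideal.absNorm v.asIdeal ≠ 1 := by
    rw [Ne, Ideal.absNorm_eq_one_iff]
    exact v.isPrime.ne_top
  omega

lemma even_ord' (v : HeightOneSpectrum (𝓞 K)) {a b c y δ : K} (ha : a ≠ 0) (hδ0 : δ ≠ 0)
    (hδ : ∃ g : ℤᵐ⁰, v.valuation K δ = g ^ 2)
    (habc : a * b * c = y ^ 2) (hab : v.valuation K (b - a) = v.valuation K δ)
    (hac : v.valuation K (c - a) = v.valuation K δ) : ∃ g : ℤᵐ⁰, v.valuation K a = g ^ 2 := by
  have hb : b = a + (b - a) := by ring
  have hc : c = a + (c - a) := by ring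
  have hva : v.valuation K a ≠ 0 := (Valuation.ne_zero_iff _).2 ha
  have hvδ : v.valuation K δ ≠ 0 := (Valuation.ne_zero_iff _).2 hδ0
  have hs := congrArg (v.valuation K) habc
  rw [map_mul, map_mul, map_pow] at hs
  rcases lt_trichotomy (v.valuation K a) (v.valuation K δ) with h | h | h
  · have h1 : v.valuation K b = v.valuation K δ := by
      rw [hb, Valuation.map_add_eq_of_lt_right _ (by rw [hab]; exact h), hab]
    have h2 : v.valuation K c = v.valuation K δ := by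
      rw [hc, Valuation.map_add_eq_of_lt_right _ (by rw [hac]; exact h), hac]
    rw [h1, h2] at hs
    refine ⟨v.valuation K y / v.valuation K δ, ?_⟩
    rw [div_pow, ← hs]
    field_simp
  · obtain ⟨g, hg⟩ := hδ
    exact ⟨g, by rw [h, hg]⟩
  · have h1 : v.valuation K b = v.valuation K a := by
      rw [hb, Valuation.map_add_eq_of_lt_left _ (by rw [hab]; exact h)]
    have h2 : v.valuation K c = v.valuation K a := by
      rw [hc, Valuation.map_add_eq_of_lt_left _ (by rw [hac]; exact h)]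
    rw [h1, h2] at hs
    refine ⟨v.valuation K y / v.valuation K a, ?_⟩
    rw [div_pow, ← hs]
    field_simp

lemma crv_class' {e1 e2 e3 δ : K} (hδ0 : δ ≠ 0) (S : Set (HeightOneSpectrum (𝓞 K)))
    (hS : ∀ v ∉ S, v.valuation K (e1 - e2) = 1 ∧ v.valuation K (e1 - e3) = 1 ∧
      v.valuation K (e2 - e3) = 1) (hδ : ∀ v ∉ S, ∃ g : ℤᵐ⁰, v.valuation K δ = g ^ 2)
    {T : Finset K} (hT : UC.Good S 2 T) {x y : K} (hy : y ≠ 0)
    (hxy : y ^ 2 = (x + δ * e1) * (x + δ * e2) * (x + δ * e3)) :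
      ∃ t1 ∈ T, ∃ t2 ∈ T, ∃ t3 ∈ T, ∃ r1 r2 r3 : K, r1 ≠ 0 ∧ r2 ≠ 0 ∧ r3 ≠ 0 ∧
        x + δ * e1 = t1 * r1 ^ 2 ∧ x + δ * e2 = t2 * r2 ^ 2 ∧ x + δ * e3 = t3 * r3 ^ 2 := by
  have hprod : (x + δ * e1) * (x + δ * e2) * (x + δ * e3) ≠ 0 := by
    rw [← hxy]; exact pow_ne_zero _ hy
  have ha : x + δ * e1 ≠ 0 := fun h => hprod (by rw [h]; ring)
  have hb : x + δ * e2 ≠ 0 := fun h => hprod (by rw [h]; ring)
  have hc : x + δ * e3 ≠ 0 := fun h => hprod (by rw [h]; ring)
  have hd : ∀ v : HeightOneSpectrum (𝓞 K), ∀ p q : K, v.valuation K (p - q) = 1 →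
      v.valuation K (x + δ * p - (x + δ * q)) = v.valuation K δ ∧
      v.valuation K (x + δ * q - (x + δ * p)) = v.valuation K δ := by
    intro v p q h
    have h1 : x + δ * p - (x + δ * q) = δ * (p - q) := by ring
    have h2 : x + δ * q - (x + δ * p) = -(δ * (p - q)) := by ring
    rw [h1, h2, Valuation.map_neg, map_mul, h, mul_one]
    exact ⟨rfl, rfl⟩
  obtain ⟨t1, ht1, r1, hr1, w1⟩ := hT _ ha fun v hv => by
    obtain ⟨v1, v2, v3⟩ := hS v hv
    exact even_ord' v ha hδ0 (hδ v hv) hxy.symm (hd v _ _ v1).2 (hd v _ _ v2).2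
  obtain ⟨t2, ht2, r2, hr2, w2⟩ := hT _ hb fun v hv => by
    obtain ⟨v1, v2, v3⟩ := hS v hv
    exact even_ord' v hb hδ0 (hδ v hv) (by rw [hxy]; ring) (hd v _ _ v1).1 (hd v _ _ v3).2
  obtain ⟨t3, ht3, r3, hr3, w3⟩ := hT _ hc fun v hv => by
    obtain ⟨v1, v2, v3⟩ := hS v hv
    exact even_ord' v hc hδ0 (hδ v hv) (by rw [hxy]; ring) (hd v _ _ v2).1 (hd v _ _ v3).1
  exact ⟨t1, ht1, t2, ht2, t3, ht3, r1, r2, r3, hr1, hr2, hr3, w1, w2, w3⟩

theorem descent_set' [DecidableEq K] {e1 e2 e3 δ : K} (p12 : e1 ≠ e2) (p13 : e1 ≠ e3)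
    (p23 : e2 ≠ e3) (hδ0 : δ ≠ 0) (S : Set (HeightOneSpectrum (𝓞 K)))
    (hS : ∀ v ∉ S, v.valuation K (e1 - e2) = 1 ∧ v.valuation K (e1 - e3) = 1 ∧
      v.valuation K (e2 - e3) = 1) (hδ : ∀ v ∉ S, ∃ g : ℤᵐ⁰, v.valuation K δ = g ^ 2)
    {T₀ : Finset K} (hT₀ : ∀ t ∈ T₀, t ≠ 0) (hT : UC.Good S 2 T₀) :
    ∃ U : Finset (Pt (δ * e1) (δ * e2) (δ * e3)), U.card ≤ T₀.card ^ 3 + 4 ∧
      ∀ P : Pt (δ * e1) (δ * e2) (δ * e3), ∃ u ∈ U, ∃ Q : Pt (δ * e1) (δ * e2) (δ * e3),
        P = u + (Q + Q) := by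
  have q12 : δ * e1 ≠ δ * e2 := fun h => p12 (mul_left_cancel₀ hδ0 h)
  have q13 : δ * e1 ≠ δ * e3 := fun h => p13 (mul_left_cancel₀ hδ0 h)
  have q23 : δ * e2 ≠ δ * e3 := fun h => p23 (mul_left_cancel₀ hδ0 h)
  let T : Finset (K × K × K) := T₀ ×ˢ T₀ ×ˢ T₀
  classical
  let rep : K × K × K → Pt (δ * e1) (δ * e2) (δ * e3) := fun c =>
    if h : ∃ P, Cl (δ * e1) (δ * e2) (δ * e3) c P then -(Classical.choose h) else 0
  have hT1 : (crv (δ * e1) (δ * e2) (δ * e3)).toAffine.Nonsingular (-(δ * e1)) 0 := by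
    apply crv_nonsing q12 q13 q23; ring
  have hT2 : (crv (δ * e1) (δ * e2) (δ * e3)).toAffine.Nonsingular (-(δ * e2)) 0 := by
    apply crv_nonsing q12 q13 q23; ring
  have hT3 : (crv (δ * e1) (δ * e2) (δ * e3)).toAffine.Nonsingular (-(δ * e3)) 0 := by
    apply crv_nonsing q12 q13 q23; ring
  let S : Finset (Pt (δ * e1) (δ * e2) (δ * e3)) :=
    {0, Affine.Point.some _ _ hT1, Affine.Point.some _ _ hT2, Affine.Point.some _ _ hT3}
  refine ⟨T.image rep ∪ S, ?_, fun P => ?_⟩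
  · refine (Finset.card_union_le _ _).trans (Nat.add_le_add ?_ ?_)
    · refine Finset.card_image_le.trans ?_
      simp only [T, Finset.card_product]
      exact le_of_eq (by ring)
    · exact Finset.card_le_four
  match P with
  | 0 =>
    refine ⟨0, ?_, 0, by simp⟩
    apply Finset.mem_union_right
    simp [S]
  | .some x y h =>
    have q := crv_eqn.mp h.1
    by_cases hy : y = 0
    · subst hy
      have hq : (x + δ * e1) * (x + δ * e2) * (x + δ * e3) = 0 := by rw [← q]; ring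
      rcases mul_eq_zero.mp hq with hq' | hq'
      · rcases mul_eq_zero.mp hq' with hq'' | hq''
        · have hx : x = -(δ * e1) := by linear_combination hq''
          subst hx
          refine ⟨Affine.Point.some _ _ hT1, ?_, 0, by simp⟩
          apply Finset.mem_union_right
          simp [S]
        · have hx : x = -(δ * e2) := by linear_combination hq''
          subst hx
          refine ⟨Affine.Point.some _ _ hT2, ?_, 0, by simp⟩
          apply Finset.mem_union_right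
          simp [S]
      · have hx : x = -(δ * e3) := by linear_combination hq'
        subst hx
        refine ⟨Affine.Point.some _ _ hT3, ?_, 0, by simp⟩
        apply Finset.mem_union_right
        simp [S]
    · obtain ⟨c1, d1, c2, d2, c3, d3, r1, r2, r3, m1, m2, m3, w1, w2, w3⟩ :=
        crv_class' hδ0 _ hS hδ hT hy q
      have hcl : Cl (δ * e1) (δ * e2) (δ * e3) (c1, c2, c3) (Affine.Point.some x y h) :=
        ⟨x, y, h, rfl, r1, r2, r3, m1, m2, m3, w1, w2, w3⟩
      have hex : ∃ P, Cl (δ * e1) (δ * e2) (δ * e3) (c1, c2, c3) P := ⟨_, hcl⟩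
      have hrep : rep (c1, c2, c3) = -(Classical.choose hex) := by
        simp only [rep]
        rw [dif_pos hex]
      have hspec := Classical.choose_spec hex
      set R := Classical.choose hex with hR
      obtain ⟨x', y', h', hR', r1', r2', r3', m1', m2', m3', w1', w2', w3'⟩ := hspec
      have n1 := hT₀ c1 d1
      have n2 := hT₀ c2 d2
      have n3 := hT₀ c3 d3
      obtain ⟨Q, hQ⟩ := add_double (r1 := c1 * r1 * r1') (r2 := c2 * r2 * r2') (r3 := c3 * r3 * r3')
        q12 q13 q23 h h'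
        (mul_ne_zero (mul_ne_zero n1 m1) m1')
        (mul_ne_zero (mul_ne_zero n2 m2) m2')
        (mul_ne_zero (mul_ne_zero n3 m3) m3')
        (by rw [w1, w1']; ring) (by rw [w2, w2']; ring) (by rw [w3, w3']; ring)
      refine ⟨rep (c1, c2, c3), ?_, Q, ?_⟩
      · apply Finset.mem_union_left
        apply Finset.mem_image_of_mem
        simp only [T, Finset.mem_product]
        exact ⟨d1, d2, d3⟩
      · rw [hrep, hQ, ← hR']
        abel

end Pool.Agent.Zk42.UV
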