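import Pool.Agent.Zk42.UG.G4
import Pool.Agent.H437R2.Man.MWPar

/-! The parallelogram law for the height of the first coordinate on the twists, with an explicit
constant. -/

set_option autoImplicit false

namespace Pool.Agent.Zk42.UV

open Finset Height WeierstrassCurve Pool.Agent.H437R2.Man Pool.Agent.H437R2.Man.Phi
  Pool.Agent.H437R2.Man.MW

section loc

variable {F : Type} [Field F] {v : AbsoluteValue F ℝ} {D : ℝ}

lemma vdm (hD : 1 ≤ D) (hadd : ∀ x y, v (x + y) ≤ D * max (v x) (v y)) {M : ℝ} (hM : 0 ≤ M)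
    {e1 e2 e3 p1 p2 p3 a b c : F} (h1 : v e1 ≤ D) (h2 : v e2 ≤ D) (h3 : v e3 ≤ D)
    (n12 : e1 - e2 ≠ 0) (n13 : e1 - e3 ≠ 0) (n23 : e2 - e3 ≠ 0)
    (h12 : v (e1 - e2)⁻¹ ≤ D) (h13 : v (e1 - e3)⁻¹ ≤ D) (h23 : v (e2 - e3)⁻¹ ≤ D)
    (q1 : p1 = a + e1 * b + e1 ^ 2 * c) (q2 : p2 = a + e2 * b + e2 ^ 2 * c)
    (q3 : p3 = a + e3 * b + e3 ^ 2 * c) (m1 : v p1 ≤ M) (m2 : v p2 ≤ M) (m3 : v p3 ≤ M) :
    Bd v D M 6 1 a ∧ Bd v D M 6 1 b ∧ Bd v D M 4 1 c := by
  have E1 : Bd v D M 1 0 e1 := by simpa [Bd] using h1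
  have E2 : Bd v D M 1 0 e2 := by simpa [Bd] using h2
  have E3 : Bd v D M 1 0 e3 := by simpa [Bd] using h3
  have I12 : Bd v D M 1 0 (e1 - e2)⁻¹ := by simpa [Bd] using h12
  have I13 : Bd v D M 1 0 (e1 - e3)⁻¹ := by simpa [Bd] using h13
  have I23 : Bd v D M 1 0 (e2 - e3)⁻¹ := by simpa [Bd] using h23
  have P1 : Bd v D M 0 1 p1 := by simpa [Bd] using m1
  have P2 : Bd v D M 0 1 p2 := by simpa [Bd] using m2
  have P3 : Bd v D M 0 1 p3 := by simpa [Bd] using m3
  have A1 : Bd v D M 2 1 (p1 * (e1 - e2)⁻¹ * (e1 - e3)⁻¹) := (P1.mul hD hM I12).mul hD hM I13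
  have A2 : Bd v D M 2 1 (p2 * (e1 - e2)⁻¹ * (e2 - e3)⁻¹) := (P2.mul hD hM I12).mul hD hM I23
  have A3 : Bd v D M 2 1 (p3 * (e1 - e3)⁻¹ * (e2 - e3)⁻¹) := (P3.mul hD hM I13).mul hD hM I23
  refine ⟨?_, ?_, ?_⟩
  · have e : a = p1 * (e1 - e2)⁻¹ * (e1 - e3)⁻¹ * (e2 * e3) -
        p2 * (e1 - e2)⁻¹ * (e2 - e3)⁻¹ * (e1 * e3) +
        p3 * (e1 - e3)⁻¹ * (e2 - e3)⁻¹ * (e1 * e2) := by
      rw [q1, q2, q3]
      field_simp
      ring
    rw [e]
    exact ((A1.mul hD hM (E2.mul hD hM E3)).sub hD hM hadd (A2.mul hD hM (E1.mul hD hM E3))).add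
      hD hM hadd (A3.mul hD hM (E1.mul hD hM E2))
  · have e : b = -(p1 * (e1 - e2)⁻¹ * (e1 - e3)⁻¹ * (e2 + e3)) +
        p2 * (e1 - e2)⁻¹ * (e2 - e3)⁻¹ * (e1 + e3) -
        p3 * (e1 - e3)⁻¹ * (e2 - e3)⁻¹ * (e1 + e2) := by
      rw [q1, q2, q3]
      field_simp
      ring
    rw [e]
    exact ((A1.mul hD hM (E2.add hD hM hadd E3)).neg.add hD hM hadd
      (A2.mul hD hM (E1.add hD hM hadd E3))).sub hD hM hadd (A3.mul hD hM (E1.add hD hM hadd E2))
  · have e : c = p1 * (e1 - e2)⁻¹ * (e1 - e3)⁻¹ - p2 * (e1 - e2)⁻¹ * (e2 - e3)⁻¹ +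
        p3 * (e1 - e3)⁻¹ * (e2 - e3)⁻¹ := by
      rw [q1, q2, q3]
      field_simp
      ring
    rw [e]
    exact (A1.sub hD hM hadd A2).add hD hM hadd A3

/-- the size of the symmetric functions -/
lemma sym_size (hD : 1 ≤ D) (hadd : ∀ x y, v (x + y) ≤ D * max (v x) (v y)) {x z x' z' : F} {M : ℝ} :
    (max (v (x * x')) (max (v (x * z' + z * x')) (v (z * z'))) ≤ M →
      max (v x) (v z) * max (v x') (v z') ≤ D * M) ∧
    (max (v x) (v z) * max (v x') (v z') ≤ M → v (x * x') ≤ M ∧ v (x * z' + z * x') ≤ D * M ∧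
      v (z * z') ≤ M) := by
  have hD0 : 0 < D := by linarith
  have n1 := v.nonneg x
  have n2 := v.nonneg z
  have n3 := v.nonneg x'
  have n4 := v.nonneg z'
  constructor
  · intro h
    have h1 : v x * v x' ≤ M := by rw [← map_mul]; exact (le_max_left _ _).trans h
    have h2 : v (x * z' + z * x') ≤ M := (le_max_left _ _).trans ((le_max_right _ _).trans h)
    have h3 : v z * v z' ≤ M := by
      rw [← map_mul]; exact (le_max_right _ _).trans ((le_max_right _ _).trans h)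
    have hM : 0 ≤ M := (v.nonneg _).trans h2
    have hDM : M ≤ D * M := by
      calc M = 1 * M := (one_mul M).symm
        _ ≤ _ := by gcongr
    have cross : ∀ {x z x' z' : F}, v x * v x' ≤ M → v (x * z' + z * x') ≤ M → v z * v z' ≤ M →
        v z ≤ v x → v x' ≤ v z' → v x * v z' ≤ D * M := by
      intro x z x' z' h1 h2 h3 hzx hxz
      have n1 := v.nonneg x
      have n2 := v.nonneg z
      have n3 := v.nonneg x'
      have n4 := v.nonneg z'
      have e : (x * z') ^ 2 = x * z' * (x * z' + z * x') + -(x * x' * (z * z')) := by ring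
      have h4 := hadd (x * z' * (x * z' + z * x')) (-(x * x' * (z * z')))
      rw [← e] at h4
      simp only [v.map_neg, map_mul, map_pow] at h4
      set q := v x * v z' with hq
      have hq0 : 0 ≤ q := by positivity
      have h5 : q ^ 2 ≤ D * (q * M) := by
        refine h4.trans ?_
        gcongr
        refine max_le (by gcongr) ?_
        calc v x * v x' * (v z * v z') = (v x * v z') * (v z * v x') := by ring
          _ ≤ q * M := by
            have : v z * v x' ≤ M := by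
              calc v z * v x' ≤ v x * v x' := by gcongr
                _ ≤ M := h1
            gcongr
      rcases hq0.eq_or_lt with h6 | h6
      · rw [← h6]; positivity
      · have : q * q ≤ q * (D * M) := by nlinarith
        exact le_of_mul_le_mul_left this h6
    rcases max_cases (v x) (v z) with ⟨h4, h5⟩ | ⟨h4, h5⟩ <;>
      rcases max_cases (v x') (v z') with ⟨h6, h7⟩ | ⟨h6, h7⟩ <;> rw [h4, h6]
    · exact h1.trans hDM
    · exact cross h1 h2 h3 h5 h7.le
    · have h2' : v (z * x' + x * z') ≤ M := by rw [add_comm]; exact h2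
      exact cross h3 h2' h1 h5.le h7
    · exact h3.trans hDM
  · intro h
    have hM : 0 ≤ M := by
      refine le_trans ?_ h
      positivity
    have h1 : ∀ s t : ℝ, 0 ≤ t → s ≤ max (v x) (v z) → t ≤ max (v x') (v z') → s * t ≤ M := by
      intro s t ht hs' ht'
      refine le_trans ?_ h
      have := n1.trans (le_max_left (v x) (v z))
      gcongr
    refine ⟨?_, ?_, ?_⟩
    · rw [map_mul]; exact h1 _ _ n3 (le_max_left _ _) (le_max_left _ _)
    · refine (hadd _ _).trans ?_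
      gcongr
      refine max_le ?_ ?_
      · rw [map_mul]; exact h1 _ _ n4 (le_max_left _ _) (le_max_right _ _)
      · rw [map_mul]; exact h1 _ _ n3 (le_max_right _ _) (le_max_left _ _)
    · rw [map_mul]; exact h1 _ _ n4 (le_max_right _ _) (le_max_right _ _)

/-- the local parallelogram law -/
lemma par_local (hD : 1 ≤ D) (hadd : ∀ x y, v (x + y) ≤ D * max (v x) (v y))
    {e1 e2 e3 : F} (h1 : v e1 ≤ D) (h2 : v e2 ≤ D) (h3 : v e3 ≤ D)
    (n12 : e1 - e2 ≠ 0) (n13 : e1 - e3 ≠ 0) (n23 : e2 - e3 ≠ 0)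
    (h12 : v (e1 - e2)⁻¹ ≤ D) (h13 : v (e1 - e3)⁻¹ ≤ D) (h23 : v (e2 - e3)⁻¹ ≤ D)
    (n2 : (2 : F) ≠ 0) (hv2 : v (2 : F)⁻¹ ≤ D) {x1 z1 x2 z2 x3 z3 x4 z4 κ : F}
    (h : ∀ e ∈ ({e1, e2, e3} : Set F), (x1 * x2 + e * (x1 * z2 + z1 * x2) +
      (-2 * e ^ 2 + 2 * (e1 + e2 + e3) * e - (e1 * e2 + e1 * e3 + e2 * e3)) * (z1 * z2)) ^ 2 =
      κ * ((x3 + e * z3) * (x4 + e * z4))) :
    v κ * (max (v x3) (v z3) * max (v x4) (v z4)) ≤
      D ^ 30 * (max (v x1) (v z1) * max (v x2) (v z2)) ^ 2 ∧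
    (max (v x1) (v z1) * max (v x2) (v z2)) ^ 2 ≤
      D ^ 30 * (v κ * (max (v x3) (v z3) * max (v x4) (v z4))) := by
  have hD0 : 0 < D := by linarith
  set σ1 := e1 + e2 + e3 with hσ1
  set σ2 := e1 * e2 + e1 * e3 + e2 * e3 with hσ2
  set s := x1 * x2 with hs
  set t := x1 * z2 + z1 * x2 with ht
  set u := z1 * z2 with hu
  set M1 := max (v x1) (v z1) * max (v x2) (v z2) with hM1
  set M3 := max (v x3) (v z3) * max (v x4) (v z4) with hM3
  have hM10 : 0 ≤ M1 := mul_nonneg ((v.nonneg _).trans (le_max_left _ _))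
    ((v.nonneg _).trans (le_max_left _ _))
  have hM30 : 0 ≤ M3 := mul_nonneg ((v.nonneg _).trans (le_max_left _ _))
    ((v.nonneg _).trans (le_max_left _ _))
  have hκ0 := v.nonneg κ
  have q1 := h e1 (by simp)
  have q2 := h e2 (by simp)
  have q3 := h e3 (by simp)
  have hev : ∀ e ∈ ({e1, e2, e3} : Set F), v e ≤ D := by
    intro e he
    simp only [Set.mem_insert_iff, Set.mem_singleton_iff] at he
    rcases he with rfl | rfl | rfl
    · exact h1
    · exact h2
    · exact h3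
  constructor
  · -- upper bound
    obtain ⟨s1, s2, s3⟩ := (sym_size hD hadd).2 (le_of_eq hM1.symm)
    have hL : ∀ e ∈ ({e1, e2, e3} : Set F), Bd v D M1 8 1 (s + e * t +
        (-2 * e ^ 2 + 2 * σ1 * e - σ2) * u) := by
      intro e he
      have E : Bd v D M1 1 0 e := by simpa [Bd] using hev e he
      have E1 : Bd v D M1 1 0 e1 := by simpa [Bd] using h1
      have E2 : Bd v D M1 1 0 e2 := by simpa [Bd] using h2
      have E3 : Bd v D M1 1 0 e3 := by simpa [Bd] using h3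
      have F2 : Bd v D M1 1 0 (2 : F) := by simpa [Bd] using two_le hadd
      have S : Bd v D M1 0 1 s := by
        unfold Bd
        rw [pow_zero, one_mul, pow_one]
        exact s1
      have T : Bd v D M1 1 1 t := by simpa [Bd] using s2
      have U : Bd v D M1 0 1 u := by
        unfold Bd
        rw [pow_zero, one_mul, pow_one]
        exact s3
      have S1 : Bd v D M1 3 0 σ1 := (E1.add hD hM10 hadd E2).add hD hM10 hadd E3
      have S2 : Bd v D M1 4 0 σ2 :=
        ((E1.mul hD hM10 E2).add hD hM10 hadd (E1.mul hD hM10 E3)).add hD hM10 hadd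
          (E2.mul hD hM10 E3)
      have G1 : Bd v D M1 3 0 (-2 * e ^ 2) := F2.neg.mul hD hM10 (E.pow hM10 2)
      have G2 : Bd v D M1 5 0 (2 * σ1 * e) := (F2.mul hD hM10 S1).mul hD hM10 E
      have G : Bd v D M1 7 0 (-2 * e ^ 2 + 2 * σ1 * e - σ2) :=
        (G1.add hD hM10 hadd G2).sub hD hM10 hadd S2
      exact (S.add hD hM10 hadd (E.mul hD hM10 T)).add hD hM10 hadd (G.mul hD hM10 U)
    have hp : ∀ e ∈ ({e1, e2, e3} : Set F), v (κ * ((x3 + e * z3) * (x4 + e * z4))) ≤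
        D ^ 16 * M1 ^ 2 := by
      intro e he
      rw [← h e he, map_pow]
      have := hL e he
      unfold Bd at this
      calc _ ≤ (D ^ 8 * M1 ^ 1) ^ 2 := by gcongr
        _ = _ := by ring
    have key := vdm hD hadd (M := D ^ 16 * M1 ^ 2) (by positivity)
      (p1 := κ * ((x3 + e1 * z3) * (x4 + e1 * z4))) (p2 := κ * ((x3 + e2 * z3) * (x4 + e2 * z4)))
      (p3 := κ * ((x3 + e3 * z3) * (x4 + e3 * z4))) (a := κ * (x3 * x4))
      (b := κ * (x3 * z4 + z3 * x4)) (c := κ * (z3 * z4)) h1 h2 h3 n12 n13 n23 h12 h13 h23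
      (by ring) (by ring) (by ring) (hp e1 (by simp)) (hp e2 (by simp)) (hp e3 (by simp))
    obtain ⟨k1, k2, k3⟩ := key
    unfold Bd at k1 k2 k3
    rw [map_mul v κ] at k1 k2 k3
    rcases hκ0.eq_or_lt with h0 | h0
    · rw [← h0, zero_mul]
      positivity
    have k4 := (sym_size hD hadd (x := x3) (z := z3) (x' := x4) (z' := z4)
      (M := D ^ 22 * M1 ^ 2 / v κ)).1 (by
        refine max_le ?_ (max_le ?_ ?_) <;> rw [le_div_iff₀ h0, mul_comm]
        · calc _ ≤ _ := k1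
            _ = _ := by ring
        · calc _ ≤ _ := k2
            _ = _ := by ring
        · calc _ ≤ _ := k3
            _ = D ^ 20 * M1 ^ 2 := by ring
            _ ≤ D ^ 22 * M1 ^ 2 := by
              gcongr
              norm_num)
    rw [← mul_div_assoc, le_div_iff₀ h0] at k4
    calc v κ * M3 = M3 * v κ := mul_comm _ _
      _ ≤ D * (D ^ 22 * M1 ^ 2) := k4
      _ = D ^ 23 * M1 ^ 2 := by ring
      _ ≤ _ := by
        gcongr
        norm_num
  · -- lower bound
    obtain ⟨r, hr0, hr⟩ : ∃ r : ℝ, 0 ≤ r ∧ r ^ 2 = D ^ 6 * (v κ * M3) :=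
      ⟨Real.sqrt (D ^ 6 * (v κ * M3)), Real.sqrt_nonneg _, Real.sq_sqrt (by positivity)⟩
    have hl : ∀ e ∈ ({e1, e2, e3} : Set F), v (s + e * t +
        (-2 * e ^ 2 + 2 * σ1 * e - σ2) * u) ≤ r := by
      intro e he
      have he' := hev e he
      have h4 : ∀ x z : F, v (x + e * z) ≤ D ^ 2 * max (v x) (v z) := by
        intro x z
        refine (hadd _ _).trans ?_
        rw [map_mul, pow_two, mul_assoc]
        refine mul_le_mul_of_nonneg_left ?_ hD0.le
        have nx := v.nonneg x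
        have nz := v.nonneg z
        refine max_le ?_ ?_
        · calc v x = 1 * v x := (one_mul _).symm
            _ ≤ D * max (v x) (v z) := by
              gcongr
              exact le_max_left _ _
        · gcongr
          exact le_max_right _ _
      have h5 := congrArg v (h e he)
      rw [map_pow, map_mul, map_mul] at h5
      have h6 : v (s + e * t + (-2 * e ^ 2 + 2 * σ1 * e - σ2) * u) ^ 2 ≤ r ^ 2 := by
        rw [h5, hr]
        have h7 : v (x3 + e * z3) * v (x4 + e * z4) ≤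
            (D ^ 2 * max (v x3) (v z3)) * (D ^ 2 * max (v x4) (v z4)) :=
          mul_le_mul (h4 _ _) (h4 _ _) (v.nonneg _) (by
            have := (v.nonneg x3).trans (le_max_left (v x3) (v z3))
            positivity)
        calc _ ≤ v κ * ((D ^ 2 * max (v x3) (v z3)) * (D ^ 2 * max (v x4) (v z4))) := by gcongr
          _ = D ^ 4 * (v κ * M3) := by rw [hM3]; ring
          _ ≤ D ^ 6 * (v κ * M3) := by
            gcongr
            norm_num
      exact le_of_sq_le_sq h6 hr0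
    have key := vdm hD hadd hr0
      (p1 := s + e1 * t + (-2 * e1 ^ 2 + 2 * σ1 * e1 - σ2) * u)
      (p2 := s + e2 * t + (-2 * e2 ^ 2 + 2 * σ1 * e2 - σ2) * u)
      (p3 := s + e3 * t + (-2 * e3 ^ 2 + 2 * σ1 * e3 - σ2) * u) (a := s - σ2 * u)
      (b := t + 2 * σ1 * u) (c := -2 * u) h1 h2 h3 n12 n13 n23 h12 h13 h23
      (by ring) (by ring) (by ring) (hl e1 (by simp)) (hl e2 (by simp)) (hl e3 (by simp))
    obtain ⟨k1, k2, k3⟩ := key
    have E1 : Bd v D r 1 0 e1 := by simpa [Bd] using h1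
    have E2 : Bd v D r 1 0 e2 := by simpa [Bd] using h2
    have E3 : Bd v D r 1 0 e3 := by simpa [Bd] using h3
    have F2 : Bd v D r 1 0 (2 : F) := by simpa [Bd] using two_le hadd
    have I2 : Bd v D r 1 0 (2 : F)⁻¹ := by simpa [Bd] using hv2
    have S1 : Bd v D r 3 0 σ1 := (E1.add hD hr0 hadd E2).add hD hr0 hadd E3
    have S2 : Bd v D r 4 0 σ2 :=
      ((E1.mul hD hr0 E2).add hD hr0 hadd (E1.mul hD hr0 E3)).add hD hr0 hadd
        (E2.mul hD hr0 E3)
    have U : Bd v D r 5 1 u := by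
      have e : u = (2 : F)⁻¹ * -(-2 * u) := by field_simp
      rw [e]
      exact I2.mul hD hr0 k3.neg
    have T : Bd v D r 10 1 t := by
      have e : t = (t + 2 * σ1 * u) - 2 * σ1 * u := by ring
      rw [e]
      exact k2.sub hD hr0 hadd ((F2.mul hD hr0 S1).mul hD hr0 U)
    have S : Bd v D r 10 1 s := by
      have e : s = (s - σ2 * u) + σ2 * u := by ring
      rw [e]
      exact k1.add hD hr0 hadd (S2.mul hD hr0 U)
    have U' := U.mono hD hr0 (by norm_num : 5 ≤ 10)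
    unfold Bd at U' T S
    have k4 := (sym_size hD hadd (x := x1) (z := z1) (x' := x2) (z' := z2)
      (M := D ^ 10 * r ^ 1)).1 (max_le S (max_le T U'))
    calc M1 ^ 2 ≤ (D * (D ^ 10 * r ^ 1)) ^ 2 := by gcongr
      _ = D ^ 22 * r ^ 2 := by ring
      _ = D ^ 28 * (v κ * M3) := by rw [hr]; ring
      _ ≤ _ := by
        gcongr
        norm_num

end loc

end Pool.Agent.Zk42.UV
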