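import Pool.Agent.Zk42.UG.G5

/-! Packing in a group with a quadratic form, in terms of the group modulo `2`. -/

set_option autoImplicit false

namespace Pool.Agent.Zk42.UV

open Finset Pool.Agent.H437R2.Man

/-- the rank of a finitely generated subgroup of a real vector space -/
lemma rank_le {E : Type} [AddCommGroup E] [Module ℝ E] (Λ : AddSubgroup E)
    (hfg : AddGroup.FG Λ) (U : Finset Λ) (hU : ∀ P : Λ, ∃ u ∈ U, ∃ Q : Λ, P = u + (Q + Q)) :
    Module.Finite ℝ (Submodule.span ℝ (Λ : Set E)) ∧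
      2 ^ Module.finrank ℝ (Submodule.span ℝ (Λ : Set E)) ≤ U.card := by
  classical
  have hfin : Module.Finite ℤ Λ := Module.Finite.iff_addGroup_fg.mpr hfg
  have hE : IsAddTorsionFree E := .of_isTorsionFree ℝ E
  have hfree : Module.Free ℤ Λ := Module.free_of_finite_type_torsion_free'
  set n := Module.finrank ℤ Λ with hn
  let b := Module.finBasis ℤ Λ
  have hspan : Submodule.span ℝ (Λ : Set E) = Submodule.span ℝ (Set.range fun i => (b i : E)) := by
    apply le_antisymm
    · rw [Submodule.span_le]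
      intro x hx
      have h1 := b.sum_repr ⟨x, hx⟩
      have h2 := congrArg Λ.subtype h1
      rw [map_sum] at h2
      have h3 : Λ.subtype ⟨x, hx⟩ = x := rfl
      rw [h3] at h2
      rw [SetLike.mem_coe, ← h2]
      refine Submodule.sum_mem _ fun i _ => ?_
      rw [map_zsmul]
      have h4 : (b.repr ⟨x, hx⟩ i) • Λ.subtype (b i) = ((b.repr ⟨x, hx⟩ i : ℤ) : ℝ) • (b i : E) := by
        rw [Int.cast_smul_eq_zsmul]
        rfl
      rw [h4]
      exact Submodule.smul_mem _ _ (Submodule.subset_span ⟨i, rfl⟩)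
    · rw [Submodule.span_le]
      rintro _ ⟨i, rfl⟩
      exact Submodule.subset_span (b i).2
  have hfinR : Module.Finite ℝ (Submodule.span ℝ (Λ : Set E)) := by
    rw [hspan]
    exact Module.Finite.span_of_finite ℝ (Set.finite_range _)
  refine ⟨hfinR, ?_⟩
  have h1 : Module.finrank ℝ (Submodule.span ℝ (Λ : Set E)) ≤ n := by
    rw [hspan]
    refine (finrank_range_le_card (R := ℝ) (fun i => (b i : E))).trans ?_
    rw [Fintype.card_fin]
  refine (Nat.pow_le_pow_right (by norm_num) h1).trans ?_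
  -- the classes modulo two
  choose! cl hcl1 Q hQ using hU
  let f : (Fin n → Bool) → Λ := fun ε => ∑ i, (if ε i then (1 : ℤ) else 0) • b i
  have hf : ∀ ε i, b.repr (f ε) i = if ε i then (1 : ℤ) else 0 := by
    intro ε i
    have : b.equivFun (f ε) = fun i => if ε i then (1 : ℤ) else 0 := by
      rw [← b.equivFun.apply_symm_apply (fun i => if ε i then (1 : ℤ) else 0)]
      congr 1
      rw [b.equivFun_symm_apply]
    exact congrFun this i
  have hinj : Function.Injective fun ε => cl (f ε) := by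
    intro ε ε' h
    have h2 := hQ (f ε)
    have h3 := hQ (f ε')
    have h4 : cl (f ε) = cl (f ε') := h
    have h5 : f ε - f ε' = (Q (f ε) - Q (f ε')) + (Q (f ε) - Q (f ε')) := by
      rw [h4] at h2
      calc f ε - f ε' = (cl (f ε') + (Q (f ε) + Q (f ε))) - (cl (f ε') + (Q (f ε') + Q (f ε'))) := by
            rw [← h2, ← h3]
        _ = _ := by abel
    funext i
    have h6 := congrArg (fun x => b.repr x i) h5
    simp only [map_sub, map_add, Finsupp.sub_apply, Finsupp.add_apply, hf] at h6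
    by_contra hne
    rcases Bool.eq_false_or_eq_true (ε i) with h7 | h7 <;>
      rcases Bool.eq_false_or_eq_true (ε' i) with h8 | h8 <;> simp [h7, h8] at h6 hne <;> omega
  have h7 : Fintype.card (Fin n → Bool) ≤ U.card := by
    rw [← Finset.card_univ]
    exact card_le_card_of_injOn (fun ε => cl (f ε)) (fun ε _ => hcl1 _) hinj.injOn
  simpa using h7

/-- packing in terms of the group modulo `2` -/
theorem pack_group (m₀ : ℕ) (κ : ℝ) (hκ : 0 < κ) : ∃ F : ℕ, ∀ (A : Type) [AddCommGroup A],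
    AddGroup.FG A → ∀ q : A → ℝ, (∀ P, 0 ≤ q P) → (∀ P Q, q (P + Q) + q (P - Q) = 2 * (q P + q Q)) →
    ∀ U : Finset A, (∀ P : A, ∃ u ∈ U, ∃ Q : A, P = u + (Q + Q)) → U.card ≤ m₀ →
    ∀ (ι : Type) [DecidableEq ι] (m : ℕ) (R : ℝ), 0 < R → ∀ (Y : Finset ι) (P : ι → A),
    (∀ t ∈ Y, q (P t) ≤ R ^ 2) → F * m < Y.card →
    ∃ Y' ⊆ Y, m < Y'.card ∧ ∀ t ∈ Y', ∀ t' ∈ Y', q (P t - P t') ≤ (2 * κ * R) ^ 2 := by
  classical
  choose F hF using fun n : ℕ => UG.pack n κ hκ
  refine ⟨∑ n ∈ range (m₀ + 1), F n, ?_⟩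
  intro A _ hfg q hq0 hq U hU hUc ι _ m R hR Y P hP hcard
  obtain ⟨N, ψ, hψ⟩ := MW.embed hfg q hq0 hq
  set Λ := ψ.range with hΛ
  have hfgΛ : AddGroup.FG Λ := by
    have : Module.Finite ℤ A := Module.Finite.iff_addGroup_fg.mpr hfg
    rw [← Module.Finite.iff_addGroup_fg]
    exact Module.Finite.of_surjective ψ.rangeRestrict.toIntLinearMap ψ.rangeRestrict_surjective
  obtain ⟨hfin, hrank⟩ := rank_le Λ hfgΛ (U.image ψ.rangeRestrict) (by
    intro x
    obtain ⟨P, rfl⟩ := ψ.rangeRestrict_surjective x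
    obtain ⟨u, hu, Q, hQ⟩ := hU P
    exact ⟨_, mem_image_of_mem _ hu, ψ.rangeRestrict Q, by rw [hQ, map_add, map_add]⟩)
  set V := Submodule.span ℝ (Λ : Set (EuclideanSpace ℝ (Fin N))) with hV
  set r := Module.finrank ℝ V with hr
  have hr0 : r ≤ m₀ := by
    have h1 : 2 ^ r ≤ m₀ := hrank.trans (card_image_le.trans hUc)
    exact (Nat.lt_two_pow_self).le.trans h1
  have hmem : ∀ P : A, ψ P ∈ V := fun P => Submodule.subset_span ⟨P, rfl⟩
  let B := stdOrthonormalBasis ℝ V
  let g : A → EuclideanSpace ℝ (Fin r) := fun P => B.repr ⟨ψ P, hmem P⟩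
  have hg : ∀ P P' : A, ‖g P - g P'‖ ^ 2 = q (P - P') := by
    intro P P'
    have h1 : g P - g P' = B.repr ⟨ψ (P - P'), hmem _⟩ := by
      have h2 : (⟨ψ (P - P'), hmem _⟩ : V) = ⟨ψ P, hmem P⟩ - ⟨ψ P', hmem P'⟩ := by
        apply Subtype.ext
        simp
      rw [h2, map_sub]
    rw [h1, LinearIsometryEquiv.norm_map, Submodule.coe_norm]
    exact hψ _
  have hg0 : ∀ P : A, ‖g P‖ ^ 2 = q P := by
    intro P
    have h1 : ‖g P‖ = ‖ψ P‖ := by
      show ‖B.repr ⟨ψ P, hmem P⟩‖ = _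
      rw [LinearIsometryEquiv.norm_map, Submodule.coe_norm]
    rw [h1, hψ]
  obtain ⟨Y', hY', h1, h2⟩ := hF r m R hR Y (fun t => g (P t)) (by
    intro t ht
    have h3 := hg0 (P t)
    have h4 := hP t ht
    rw [← h3] at h4
    exact le_of_sq_le_sq h4 hR.le) (by
      refine lt_of_le_of_lt ?_ hcard
      refine Nat.mul_le_mul_right _ ?_
      exact single_le_sum (f := F) (fun _ _ => Nat.zero_le _) (mem_range.2 (by omega)))
  refine ⟨Y', hY', h1, fun t ht t' ht' => ?_⟩
  rw [← hg]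
  have := h2 t ht t' ht'
  gcongr

end Pool.Agent.Zk42.UV
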