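import Pool.Agent.Zk42.UV.Gap
import Pool.Agent.Zk42.UG.G6
import Pool.Agent.Zk42.UV.Rank
import Pool.Agent.Zk42.UV.Desc
import Pool.Agent.Zk42.UV.North

/-! The uniform bound for the number of the ratios. -/

set_option autoImplicit false

namespace Pool.Agent.Zk42.UV

open Pool.Agent.Zk42.UC Pool.Agent.Zk42.UG Finset Polynomial Pool.Agent.H437R2.Man Height
  Height.AdmissibleAbsValues Module IsDedekindDomain NumberField
open scoped WithZero

/-- square roots exist in number fields of twice the degree -/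
theorem sqrt_field (L : Type) [Field L] [NumberField L] (δ : L) :
    ∃ (F : Type) (_ : Field F) (_ : NumberField F) (φ : L →+* F) (θ : F),
      θ ^ 2 = φ δ ∧ finrank ℚ F ≤ 2 * finrank ℚ L := by
  by_cases h : ∃ r : L, r ^ 2 = δ
  · obtain ⟨r, hr⟩ := h
    exact ⟨L, inferInstance, inferInstance, RingHom.id L, r, by simpa using hr, by omega⟩
  · push Not at h
    have hirr : Irreducible (X ^ 2 - C δ : L[X]) := X_pow_sub_C_irreducible_of_prime Nat.prime_two h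
    have : Fact (Irreducible (X ^ 2 - C δ : L[X])) := ⟨hirr⟩
    have hne : (X ^ 2 - C δ : L[X]) ≠ 0 := hirr.ne_zero
    have hfin : Module.Finite L (AdjoinRoot (X ^ 2 - C δ : L[X])) :=
      (AdjoinRoot.powerBasis hne).finite
    have hnf : NumberField (AdjoinRoot (X ^ 2 - C δ : L[X])) := NumberField.of_module_finite L _
    refine ⟨AdjoinRoot (X ^ 2 - C δ : L[X]), inferInstance, hnf,
      algebraMap L (AdjoinRoot (X ^ 2 - C δ : L[X])), AdjoinRoot.root _, ?_, ?_⟩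
    · have h1 := AdjoinRoot.eval₂_root (X ^ 2 - C δ : L[X])
      rw [eval₂_sub, eval₂_pow, eval₂_X, eval₂_C, sub_eq_zero] at h1
      exact h1
    · have h1 : finrank L (AdjoinRoot (X ^ 2 - C δ : L[X])) = 2 := by
        rw [(AdjoinRoot.powerBasis hne).finrank, AdjoinRoot.powerBasis_dim, natDegree_X_pow_sub_C]
      have h2 := finrank_mul_finrank ℚ L (AdjoinRoot (X ^ 2 - C δ : L[X]))
      rw [h1] at h2
      omega

/-- the uniform bound for the number of the ratios in one class -/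
theorem ratio_unif {d : ℕ} (hd : 5 ≤ d) (D m₀ : ℕ) : ∃ N : ℕ, ∀ (L : Type) [Field L]
    [NumberField L] (μ : L), IsPrimitiveRoot μ d → finrank ℚ L ≤ D →
    ∀ S : Set (HeightOneSpectrum (𝓞 L)), (∀ v ∉ S, v.valuation L (d : L) = 1) →
    ∀ T : Finset L, (∀ t ∈ T, t ≠ 0) → Good S 2 T → T.card ≤ m₀ →
    ∀ δ : L, δ ≠ 0 → (∀ v ∉ S, ∃ g : ℤᵐ⁰, v.valuation L δ = g ^ 2) →
    ∀ a b w : L, a ≠ 0 → w ≠ 0 → PP (fu a b d) w → ∀ Y : Finset L,
      (∀ t ∈ Y, (∃ u : L, PP (fu a b d) u ∧ t = u / w) ∧ t ^ d ≠ 1 ∧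
        ∃ y : L, δ * y ^ 2 = f4 μ (μ ^ 2) (μ ^ 3) (μ ^ 4) t) → Y.card ≤ N := by
  classical
  -- constants
  set κ : ℝ := 1 / (4 * (2 * d + 1)) with hκ
  have hκ0 : 0 < κ := by positivity
  obtain ⟨F, hF⟩ := pack_group (m₀ ^ 3 + 4) κ hκ0
  set l₀ : ℝ := (2 * D : ℕ) * Real.log 2 with hl₀
  have hl₀0 : 0 ≤ l₀ := by positivity
  set c3 : ℝ := 30 * (127 * l₀) with hc3
  set c5 : ℝ := 4 * l₀ + c3 with hc5
  set c7 : ℝ := c3 + 6 * l₀ with hc7
  have hc30 : 0 ≤ c3 := by positivity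
  have hc50 : 0 ≤ c5 := by positivity
  have hc70 : 0 ≤ c7 := by positivity
  set c1 : ℝ := (2 * d + 59 : ℕ) * ((2 * (d ^ 2 + 1) + 1 : ℕ) * l₀) with hc1
  have hc10 : 0 ≤ c1 := by positivity
  set dd : ℝ := ((d * (d - 1) : ℕ) : ℝ) with hdd
  have hd0 : (0 : ℝ) < d := by
    have : 0 < d := by omega
    exact_mod_cast this
  have hddd : (d : ℝ) ≤ dd := by
    have : d * 1 ≤ d * (d - 1) := Nat.mul_le_mul_left d (by omega)
    rw [hdd]
    exact_mod_cast (by omega : d ≤ d * (d - 1))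
  have hdd0 : 0 < dd := lt_of_lt_of_le hd0 hddd
  set c6 : ℝ := (d * l₀) / dd + c5 + 1 with hc6
  have hc60 : 0 < c6 := by positivity
  set M : ℝ := (2 * d + 1) ^ 2 with hM
  have hM0 : 0 ≤ M := by positivity
  set c8 : ℝ := c1 + M * c7 + c6 / 4 with hc8
  set H0 : ℝ := 4 / 3 * d * c8 with hH0
  obtain ⟨N₂, hN₂⟩ := northcott_unif (2 * D) ((H0 + d * l₀) / dd)
  refine ⟨F * (2 * d) + N₂, ?_⟩
  intro L _ _ μ hμ hLD S hdS T hT0 hT hTc δ hδ0 hδ a b w ha hw0 hw Y hY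
  obtain ⟨K₂, _, _, φ, θ, hθ, hK₂⟩ := sqrt_field L δ
  have hK₂D : finrank ℚ K₂ ≤ 2 * D := hK₂.trans (by omega)
  set tw : ℝ := ((totalWeight K₂ : ℕ) : ℝ) with htw
  set l : ℝ := tw * Real.log 2 with hl
  have hlog2 : 0 ≤ Real.log 2 := Real.log_nonneg (by norm_num)
  have hll : l ≤ l₀ := by
    rw [hl, hl₀, htw, totalWeight_eq_finrank]
    have : ((finrank ℚ K₂ : ℕ) : ℝ) ≤ ((2 * D : ℕ) : ℝ) := by exact_mod_cast hK₂D
    gcongr
  have hl0 : 0 ≤ l := by positivity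
  -- roots of unity
  have hμd : μ ^ d = 1 := hμ.pow_eq_one
  have hne : ∀ i j : ℕ, i < d → j < d → i ≠ j → μ ^ i ≠ μ ^ j := fun i j hi hj hij h =>
    hij (hμ.pow_inj hi hj h)
  have n12 : μ ≠ μ ^ 2 := by simpa using hne 1 2 (by omega) (by omega) (by norm_num)
  have n13 : μ ≠ μ ^ 3 := by simpa using hne 1 3 (by omega) (by omega) (by norm_num)
  have n14 : μ ≠ μ ^ 4 := by simpa using hne 1 4 (by omega) (by omega) (by norm_num)
  have n23 : μ ^ 2 ≠ μ ^ 3 := hne 2 3 (by omega) (by omega) (by norm_num)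
  have n24 : μ ^ 2 ≠ μ ^ 4 := hne 2 4 (by omega) (by omega) (by norm_num)
  have n34 : μ ^ 3 ≠ μ ^ 4 := hne 3 4 (by omega) (by omega) (by norm_num)
  have p2 : (μ ^ 2) ^ d = 1 := by rw [← pow_mul, mul_comm, pow_mul, hμd, one_pow]
  have p3 : (μ ^ 3) ^ d = 1 := by rw [← pow_mul, mul_comm, pow_mul, hμd, one_pow]
  have p4 : (μ ^ 4) ^ d = 1 := by rw [← pow_mul, mul_comm, pow_mul, hμd, one_pow]
  set z4 := μ ^ 4 with hz4
  set A := μ - z4 with hA
  set B := μ ^ 2 - z4 with hB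
  set C := μ ^ 3 - z4 with hC
  have hA0 : A ≠ 0 := sub_ne_zero.2 n14
  have hB0 : B ≠ 0 := sub_ne_zero.2 n24
  have hC0 : C ≠ 0 := sub_ne_zero.2 n34
  have hQ0 : A * B * C ≠ 0 := mul_ne_zero (mul_ne_zero hA0 hB0) hC0
  have hAB : A ≠ B := fun h => n12 (sub_left_injective h)
  have hAC : A ≠ C := fun h => n13 (sub_left_injective h)
  have hBC : B ≠ C := fun h => n23 (sub_left_injective h)
  obtain ⟨e1, he1⟩ : ∃ e1, e1 = 1 / (A * (A * B * C)) := ⟨_, rfl⟩
  obtain ⟨e2, he2⟩ : ∃ e2, e2 = 1 / (B * (A * B * C)) := ⟨_, rfl⟩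
  obtain ⟨e3, he3⟩ : ∃ e3, e3 = 1 / (C * (A * B * C)) := ⟨_, rfl⟩
  have q12 : e1 ≠ e2 := by
    intro h
    rw [he1, he2, one_div, one_div, inv_inj] at h
    exact hAB (mul_right_cancel₀ hQ0 h)
  have q13 : e1 ≠ e3 := by
    intro h
    rw [he1, he3, one_div, one_div, inv_inj] at h
    exact hAC (mul_right_cancel₀ hQ0 h)
  have q23 : e2 ≠ e3 := by
    intro h
    rw [he2, he3, one_div, one_div, inv_inj] at h
    exact hBC (mul_right_cancel₀ hQ0 h)
  have r12 : δ * e1 ≠ δ * e2 := fun h => q12 (mul_left_cancel₀ hδ0 h)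
  have r13 : δ * e1 ≠ δ * e3 := fun h => q13 (mul_left_cancel₀ hδ0 h)
  have r23 : δ * e2 ≠ δ * e3 := fun h => q23 (mul_left_cancel₀ hδ0 h)
  -- good reduction outside `S`
  have hvS : ∀ v ∉ S, v.valuation L (e1 - e2) = 1 ∧ v.valuation L (e1 - e3) = 1 ∧
      v.valuation L (e2 - e3) = 1 := by
    intro v hv
    have hz : ∀ ζ ζ' : L, ζ ^ d = 1 → ζ' ^ d = 1 → ζ ≠ ζ' → v.valuation L (ζ - ζ') = 1 :=
      fun ζ ζ' h h' hne => v_zeta_sub (v.valuation L) (by omega) (hdS v hv) h h' hne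
    have a1 : v.valuation L A = 1 := hz _ _ hμd p4 n14
    have a2 : v.valuation L B = 1 := hz _ _ p2 p4 n24
    have a3 : v.valuation L C = 1 := hz _ _ p3 p4 n34
    have b12 : e1 - e2 = (μ ^ 2 - μ) / (A * B * (A * B * C)) := by
      rw [he1, he2]
      field_simp
      rw [hA, hB]
      ring
    have b13 : e1 - e3 = (μ ^ 3 - μ) / (A * C * (A * B * C)) := by
      rw [he1, he3]
      field_simp
      rw [hA, hC]
      ring
    have b23 : e2 - e3 = (μ ^ 3 - μ ^ 2) / (B * C * (A * B * C)) := by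
      rw [he2, he3]
      field_simp
      rw [hB, hC]
      ring
    rw [b12, b13, b23]
    simp only [map_div₀, map_mul, a1, a2, a3, mul_one, div_one]
    exact ⟨hz _ _ p2 hμd n12.symm, hz _ _ p3 hμd n13.symm, hz _ _ p3 p2 n23.symm⟩
  -- the group of the twist
  obtain ⟨U, hUc, hU⟩ := descent_set' q12 q13 q23 hδ0 S hvS hδ hT0 hT
  have hfg : AddGroup.FG (MW.Pt (δ * e1) (δ * e2) (δ * e3)) := MW.pt_fg r12 r13 r23
  -- heights in `K₂`
  have hζ : ∀ ζ : L, ζ ^ d = 1 → (φ ζ) ^ d = 1 := fun ζ h => by rw [← map_pow, h, map_one]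
  have hhs : ∀ ζ ζ' : L, ζ ^ d = 1 → ζ' ^ d = 1 → logHeight₁ (φ (ζ - ζ')) ≤ l := by
    intro ζ ζ' h h'
    rw [map_sub]
    exact ht_root_sub (by omega) (hζ _ h) (hζ _ h')
  have hhA := hhs _ _ hμd p4
  have hhB := hhs _ _ p2 p4
  have hhC := hhs _ _ p3 p4
  have hhQ : logHeight₁ (φ (A * B * C)) ≤ 3 * l := by
    rw [map_mul, map_mul]
    have h1 := logHeight₁_mul_le (φ A * φ B) (φ C)
    have h2 := logHeight₁_mul_le (φ A) (φ B)
    linarith
  have hhe : ∀ X : L, logHeight₁ (φ X) ≤ l → logHeight₁ (φ (1 / (X * (A * B * C)))) ≤ 4 * l := by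
    intro X hX
    rw [one_div, map_inv₀, logHeight₁_inv, map_mul]
    have h1 := logHeight₁_mul_le (φ X) (φ (A * B * C))
    linarith
  have hh1 : logHeight₁ (φ e1) ≤ 4 * l := by rw [he1]; exact hhe A hhA
  have hh2 : logHeight₁ (φ e2) ≤ 4 * l := by rw [he2]; exact hhe B hhB
  have hh3 : logHeight₁ (φ e3) ≤ 4 * l := by rw [he3]; exact hhe C hhC
  have hsumE : ∑ z ∈ ({φ e1, φ e2, φ e3, φ e1 - φ e2, φ e1 - φ e3, φ e2 - φ e3, 2} : Finset K₂),
      2 * logHeight₁ z ≤ 126 * l := by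
    have h1 : ∀ z ∈ ({φ e1, φ e2, φ e3, φ e1 - φ e2, φ e1 - φ e3, φ e2 - φ e3, 2} : Finset K₂),
        2 * logHeight₁ z ≤ 18 * l := by
      intro z hz
      simp only [mem_insert, mem_singleton] at hz
      rcases hz with rfl | rfl | rfl | rfl | rfl | rfl | rfl
      · linarith
      · linarith
      · linarith
      · have := logHeight₁_sub_le (φ e1) (φ e2)
        linarith
      · have := logHeight₁_sub_le (φ e1) (φ e3)
        linarith
      · have := logHeight₁_sub_le (φ e2) (φ e3)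
        linarith
      · have := ht_two (L := K₂)
        linarith
    refine (sum_le_card_nsmul _ _ _ h1).trans ?_
    rw [nsmul_eq_mul]
    have h2 : (({φ e1, φ e2, φ e3, φ e1 - φ e2, φ e1 - φ e3, φ e2 - φ e3, 2} :
        Finset K₂).card : ℝ) ≤ 7 := by
      have := Finset.card_le_six (a := φ e1) (b := φ e2) (c := φ e3) (d := φ e1 - φ e2)
        (e := φ e1 - φ e3) (f := φ e2 - φ e3)
      have h3 : ({φ e1, φ e2, φ e3, φ e1 - φ e2, φ e1 - φ e3, φ e2 - φ e3, 2} : Finset K₂).card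
          ≤ 7 := by
        repeat' refine (card_insert_le _ _).trans (Nat.succ_le_succ ?_)
        simp
      exact_mod_cast h3
    calc _ ≤ 7 * (18 * l) := by gcongr
      _ = _ := by ring
  have hpar : ∀ P Q : MW.Pt (δ * e1) (δ * e2) (δ * e3),
      |HH φ δ (P + Q) + HH φ δ (P - Q) - 2 * (HH φ δ P + HH φ δ Q)| ≤ c3 := by
    intro P Q
    refine (par_glob φ q12 q13 q23 hδ0 P Q).trans ?_
    rw [hc3]
    have : tw * Real.log 2 ≤ l₀ := hll
    nlinarith [hsumE]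
  have hHH0 : HH φ δ (0 : MW.Pt (δ * e1) (δ * e2) (δ * e3)) = 0 := by
    unfold HH
    rw [WeierstrassCurve.Affine.Point.xRep_zero]
    simp
  obtain ⟨q, hq1, hq2, hq3⟩ := canon' (fun P : MW.Pt (δ * e1) (δ * e2) (δ * e3) => HH φ δ P) c3
    (fun P => HH_nonneg φ δ P) hHH0 hpar
  -- the height of the coefficients
  set H : ℝ := logHeight₁ (φ (a * b ^ (d - 1))) with hH
  have hHnn : 0 ≤ H := zero_le_logHeight₁ _
  have ha₂ : φ a ≠ 0 := (map_ne_zero φ).2 ha
  have hw₂ : φ w ≠ 0 := (map_ne_zero φ).2 hw0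
  have hH' : H = logHeight₁ (φ a * φ b ^ (d - 1)) := by rw [hH, map_mul, map_pow]
  have hht : ∀ t ∈ Y, dd * logHeight₁ (φ t) ≤ H + d * l := by
    intro t ht
    obtain ⟨⟨u, hu, rfl⟩, -⟩ := hY t ht
    rw [map_div₀, hH']
    exact height_ratio' (by omega) (φ a) (φ b) (φ u) (φ w) ha₂ hw₂ (PP_hom φ hu) (PP_hom φ hw)
  rcases le_or_gt H H0 with hc | hc
  · have h1 := hN₂ K₂ hK₂D (Y.image φ) (by
      intro s hs
      obtain ⟨t, ht, rfl⟩ := mem_image.1 hs
      rw [le_div_iff₀ hdd0]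
      have h2 := hht t ht
      have h3 : (d : ℝ) * l ≤ d * l₀ := by gcongr
      linarith)
    rw [card_image_of_injective _ φ.injective] at h1
    exact h1.trans (Nat.le_add_left _ _)
  by_contra hcard
  push Not at hcard
  have hcard' : F * (2 * d) < Y.card := by omega
  choose! y hy using fun t ht => (hY t ht).2.2
  have hs0 : ∀ t ∈ Y, t - z4 ≠ 0 := by
    intro t ht h
    apply (hY t ht).2.1
    rw [sub_eq_zero.1 h, p4]
  -- the points
  have hns : ∀ t ∈ Y, (MW.crv (δ * e1) (δ * e2) (δ * e3)).toAffine.Nonsingular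
      (δ * (-(1 / (A * B * C)) / (t - z4))) (δ ^ 2 * -(y t / (A * B * C) ^ 2 / (t - z4) ^ 2)) :=
    fun t ht => MW.crv_nonsing r12 r13 r23 (by
      rw [he1, he2, he3]
      exact w_eqn' hA0 hB0 hC0 (hs0 t ht) (hy t ht))
  let P : L → MW.Pt (δ * e1) (δ * e2) (δ * e3) := fun t =>
    if h : t ∈ Y then WeierstrassCurve.Affine.Point.some _ _ (hns t h) else 0
  have hP : ∀ t (h : t ∈ Y), P t = WeierstrassCurve.Affine.Point.some _ _ (hns t h) :=
    fun t h => dif_pos h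
  have hnorm : ∀ t ∈ Y, q (P t) ≤ H / dd + c6 := by
    intro t ht
    have h1 := hq1 (P t)
    have h0 : HH φ δ (P t) = logHeight₁ (φ (-(1 / (A * B * C)) / (t - z4))) := by
      unfold HH
      rw [hP t ht, WeierstrassCurve.Affine.Point.xRep_some]
      simp only [Matrix.cons_val_zero, Matrix.cons_val_one]
      rw [map_one, div_one, mul_div_cancel_left₀ _ hδ0]
    rw [h0, abs_le] at h1
    have h2 : logHeight₁ (φ (-(1 / (A * B * C)) / (t - z4))) ≤
        3 * l + (l + logHeight₁ (φ t)) := by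
      rw [div_eq_mul_inv, map_mul]
      refine (logHeight₁_mul_le _ _).trans ?_
      rw [map_inv₀, logHeight₁_inv, map_neg, logHeight₁_neg, one_div, map_inv₀, logHeight₁_inv,
        map_sub φ t]
      have h4 := logHeight₁_sub_le (φ t) (φ z4)
      rw [ht_root (by omega) (hζ _ p4)] at h4
      linarith
    have h3 := hht t ht
    have h4 : logHeight₁ (φ t) ≤ H / dd + d * l₀ / dd := by
      rw [← add_div, le_div_iff₀ hdd0]
      have h3' : (d : ℝ) * l ≤ d * l₀ := by gcongr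
      linarith
    rw [hc6, hc5]
    linarith
  set R : ℝ := Real.sqrt (H / dd + c6) with hR
  have hRpos : 0 < H / dd + c6 := by positivity
  have hR0 : 0 < R := Real.sqrt_pos.2 hRpos
  have hR2 : R ^ 2 = H / dd + c6 := Real.sq_sqrt hRpos.le
  obtain ⟨Y', hY', hc1', hclose⟩ := hF (MW.Pt (δ * e1) (δ * e2) (δ * e3)) hfg q hq2 hq3 U hU
    (hUc.trans (Nat.add_le_add_right (Nat.pow_le_pow_left hTc 3) 4)) L (2 * d) R hR0 Y P
    (fun t ht => by rw [hR2]; exact hnorm t ht) hcard'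
  obtain ⟨Y'', hY'', hc2⟩ := exists_subset_card_eq (Nat.succ_le_iff.2 hc1')
  have hsubY : Y'' ⊆ Y := hY''.trans hY'
  -- over `K₂`
  set yF : K₂ → K₂ := Function.extend φ (fun t => θ * φ (y t)) 0 with hyF
  have hyF' : ∀ t, yF (φ t) = θ * φ (y t) := fun t => φ.injective.extend_apply _ _ t
  have hμ₂ : IsPrimitiveRoot (φ μ) d := hμ.map_of_injective φ.injective
  have hm : ∀ s ∈ Y''.image φ, ∃ t ∈ Y'', φ t = s := fun s hs => mem_image.1 hs
  have hf4 : ∀ t : L, φ (f4 μ (μ ^ 2) (μ ^ 3) z4 t) =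
      f4 (φ μ) (φ (μ ^ 2)) (φ (μ ^ 3)) (φ z4) (φ t) := by
    intro t
    unfold f4 cf
    simp only [map_mul, map_sub]
  have key := gap' hμ₂ (by omega) (hζ _ hμd) (hζ _ p2) (hζ _ p3) (hζ _ p4)
    (fun h => n12 (φ.injective h)) (fun h => n13 (φ.injective h)) (fun h => n14 (φ.injective h))
    (fun h => n23 (φ.injective h)) (fun h => n24 (φ.injective h)) (fun h => n34 (φ.injective h))
    (Y''.image φ) (by rw [card_image_of_injective _ φ.injective]; omega) yF (by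
      intro s hs
      obtain ⟨t, ht, rfl⟩ := hm s hs
      rw [hyF', mul_pow, hθ, ← map_pow, ← map_mul, hy t (hsubY ht), hf4]) (φ a) (φ b) (φ w)
    (PP_hom φ hw) (by
      intro s hs
      obtain ⟨t, ht, rfl⟩ := hm s hs
      obtain ⟨u, hu, hut⟩ := (hY t (hsubY ht)).1
      exact ⟨φ u, PP_hom φ hu, by rw [hut, map_div₀]⟩)
  rw [← hH'] at key
  have hterm : ∀ p ∈ (Y''.image φ).offDiag,
      logHeight₁ (G4 (φ μ) (φ (μ ^ 2)) (φ (μ ^ 3)) (φ z4) p.1 (yF p.1) p.2 (yF p.2)) ≤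
        4 * κ ^ 2 * R ^ 2 + c7 := by
    intro p hp
    rw [mem_offDiag] at hp
    obtain ⟨m1, m2, hne'⟩ := hp
    obtain ⟨t, ht, ht1⟩ := hm _ m1
    obtain ⟨t', ht', ht2⟩ := hm _ m2
    have htt : t ≠ t' := by
      rintro rfl
      exact hne' (ht1.symm.trans ht2)
    have k1 := hsubY ht
    have k2 := hsubY ht'
    rw [← ht1, ← ht2, hyF', hyF']
    have hsne : t - z4 ≠ t' - z4 := fun h => htt (sub_left_injective h)
    have hx : δ * (-(1 / (A * B * C)) / (t - z4)) ≠ δ * (-(1 / (A * B * C)) / (t' - z4)) := by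
      intro h
      apply hsne
      have hq : -(1 / (A * B * C)) ≠ 0 := neg_ne_zero.2 (one_div_ne_zero hQ0)
      have h := mul_left_cancel₀ hδ0 h
      rw [div_eq_div_iff (hs0 _ k1) (hs0 _ k2)] at h
      exact (mul_left_cancel₀ hq h).symm
    have h1 := hq1 (P t - P t')
    have h0 : HH φ δ (P t - P t') =
        logHeight₁ (φ ((1 / (A * B * C)) ^ 2 * tG δ A B C (t - z4) (y t) (t' - z4) (y t'))) := by
      unfold HH
      rw [hP _ k1, hP _ k2, xdiff _ _ hx]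
      simp only [Matrix.cons_val_zero, Matrix.cons_val_one]
      have hw := w_diff' hδ0 hA0 hB0 hC0 (hs0 _ k1) (hs0 _ k2) hsne (hy _ k1) (hy _ k2)
      rw [← he1, ← he2, ← he3] at hw
      rw [hw, map_one, div_one, mul_div_cancel_left₀ _ hδ0]
    rw [h0, abs_le] at h1
    have h2 : G4 (φ μ) (φ (μ ^ 2)) (φ (μ ^ 3)) (φ z4) (φ t) (θ * φ (y t)) (φ t') (θ * φ (y t')) =
        φ (A * B * C) ^ 2 *
        φ ((1 / (A * B * C)) ^ 2 * tG δ A B C (t - z4) (y t) (t' - z4) (y t')) := by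
      rw [← map_pow, ← map_mul, ← mul_assoc, ← mul_pow, mul_one_div_cancel hQ0, one_pow, one_mul,
        tG_map φ hθ]
      unfold G4
      simp only [hA, hB, hC, map_sub]
    rw [h2]
    have h3 := logHeight₁_mul_le (φ (A * B * C) ^ 2)
      (φ ((1 / (A * B * C)) ^ 2 * tG δ A B C (t - z4) (y t) (t' - z4) (y t')))
    have h4 : logHeight₁ (φ (A * B * C) ^ 2) ≤ 6 * l := by
      rw [logHeight₁_pow]
      push_cast
      linarith
    have h5 := hclose _ (hY'' ht) _ (hY'' ht')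
    have h7 : (2 * κ * R) ^ 2 = 4 * κ ^ 2 * R ^ 2 := by ring
    rw [h7] at h5
    rw [hc7]
    linarith
  have hsum := sum_le_card_nsmul _ _ _ hterm
  rw [nsmul_eq_mul] at hsum
  have hoff : (((Y''.image φ).offDiag.card : ℕ) : ℝ) ≤ M := by
    rw [offDiag_card, card_image_of_injective _ φ.injective, hc2]
    have : (2 * d).succ * (2 * d).succ - (2 * d).succ ≤ (2 * d + 1) ^ 2 := by
      rw [pow_two]
      exact Nat.sub_le _ _
    rw [hM]
    exact_mod_cast this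
  have hbr : 0 ≤ 4 * κ ^ 2 * R ^ 2 + c7 := by positivity
  have h8 : (((Y''.image φ).offDiag.card : ℕ) : ℝ) * (4 * κ ^ 2 * R ^ 2 + c7) ≤
      M * (4 * κ ^ 2 * R ^ 2 + c7) := mul_le_mul_of_nonneg_right hoff hbr
  have h9 : M * (4 * κ ^ 2 * R ^ 2 + c7) = R ^ 2 / 4 + M * c7 := by
    rw [hM, hκ]
    field_simp
  have h10 : ((2 * d + 59 : ℕ) : ℝ) * ((2 * (d ^ 2 + 1) + 1 : ℕ) *
      ((totalWeight K₂ : ℕ) * Real.log 2)) ≤ c1 := by
    rw [hc1]
    have : ((totalWeight K₂ : ℕ) : ℝ) * Real.log 2 ≤ l₀ := hll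
    gcongr
  have h11 : H / dd ≤ H / d := by gcongr
  have h12 : 1 / (d : ℝ) * H = H / d := by ring
  rw [h12] at key
  have h13 : H / d ≤ 4 / 3 * c8 := by
    rw [hc8]
    have h15 := h8.trans_eq h9
    have h14 := key.trans (add_le_add h10 (hsum.trans h15))
    rw [hR2] at h14
    linarith
  rw [div_le_iff₀ hd0] at h13
  rw [hH0] at hc
  linarith

end Pool.Agent.Zk42.UV
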