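import Pool.Agent.Zk42.UC.Fin
import Pool.Agent.Zk42.UC.Main

/-! The size of the group of the elements with even valuations outside `S`, modulo squares. -/

set_option autoImplicit false

open IsDedekindDomain NumberField
open scoped nonZeroDivisors

namespace Pool.Agent.Zk42.UV

open Pool.Agent.H437R2.Man

/-- the number of the ideal classes of order at most two -/
noncomputable def cl2 (K : Type) [Field K] [NumberField K] : ℕ :=
  Nat.card {g : ClassGroup (𝓞 K) // g ^ 2 = 1}

/-- units modulo squares -/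
lemma units_sq' (K : Type) [Field K] [NumberField K] :
    ∃ T : Finset (𝓞 K)ˣ, T.card ≤ 2 ^ Module.finrank ℚ K ∧
      ∀ u : (𝓞 K)ˣ, ∃ t ∈ T, ∃ w : (𝓞 K)ˣ, u = t * w ^ 2 := by
  classical
  obtain ⟨g, hg⟩ := IsCyclic.exists_generator (α := NumberField.Units.torsion K)
  let f : Bool × (Fin (Units.rank K) → Bool) → (𝓞 K)ˣ := fun b =>
    (if b.1 then (g : (𝓞 K)ˣ) else 1) * ∏ i, (if b.2 i then Units.fundSystem K i else 1)
  refine ⟨Finset.univ.image f, ?_, ?_⟩
  · refine Finset.card_image_le.trans ?_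
    rw [Finset.card_univ, Fintype.card_prod, Fintype.card_bool, Fintype.card_fun, Fintype.card_bool,
      Fintype.card_fin, ← pow_succ']
    refine Nat.pow_le_pow_right (by norm_num) ?_
    unfold Units.rank
    have h1 : 0 < Fintype.card (InfinitePlace K) := Fintype.card_pos
    rw [Nat.sub_add_cancel h1, InfinitePlace.card_eq_nrRealPlaces_add_nrComplexPlaces,
      ← InfinitePlace.card_add_two_mul_card_eq_rank]
    omega
  · intro u
    obtain ⟨⟨ζ, e⟩, he, -⟩ := Units.exist_unique_eq_mul_prod K u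
    obtain ⟨k, hk⟩ := hg ζ
    have hk' : (g : (𝓞 K)ˣ) ^ k = (ζ : (𝓞 K)ˣ) := by
      rw [← hk]; rfl
    have hpar : ∀ (x : (𝓞 K)ˣ) (k : ℤ), x ^ k = (if k % 2 = 1 then x else 1) * (x ^ (k / 2)) ^ 2 := by
      intro x k
      rw [← zpow_natCast, ← zpow_mul]
      rcases Int.emod_two_eq_zero_or_one k with h | h
      · rw [if_neg (by omega), one_mul]
        congr 1
        push_cast
        omega
      · rw [if_pos h]
        nth_rewrite 2 [← zpow_one x]
        rw [← zpow_add]
        congr 1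
        push_cast
        omega
    refine ⟨f (decide (k % 2 = 1), fun i => decide (e i % 2 = 1)), Finset.mem_image_of_mem _
      (Finset.mem_univ _), (g : (𝓞 K)ˣ) ^ (k / 2) * ∏ i, Units.fundSystem K i ^ (e i / 2), ?_⟩
    rw [he]
    simp only
    rw [← hk', hpar _ k]
    have h1 : ∏ i, Units.fundSystem K i ^ (e i) =
        (∏ i, (if e i % 2 = 1 then Units.fundSystem K i else 1)) *
          (∏ i, Units.fundSystem K i ^ (e i / 2)) ^ 2 := by
      rw [← Finset.prod_pow, ← Finset.prod_mul_distrib]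
      exact Finset.prod_congr rfl fun i _ => hpar _ _
    rw [h1]
    simp only [f, decide_eq_true_eq]
    rw [mul_pow]
    exact mul_mul_mul_comm _ _ _ _

variable {K : Type} [Field K] [NumberField K]

/-- structure of ideals with even orders away from `S` -/
lemma ideal_half' (S : Set (HeightOneSpectrum (𝓞 K))) (hS : S.Finite) :
    ∃ D : Finset (Ideal (𝓞 K)), D.card ≤ 2 ^ S.ncard ∧ ∀ I : Ideal (𝓞 K), I ≠ 0 →
      (∀ v : HeightOneSpectrum (𝓞 K), v ∉ S →
        Even ((UniqueFactorizationMonoid.normalizedFactors I).count v.asIdeal)) →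
      ∃ d ∈ D, ∃ J : Ideal (𝓞 K), J ≠ 0 ∧ I = J ^ 2 * d := by
  classical
  set S' : Finset (Ideal (𝓞 K)) := hS.toFinset.image (fun v => v.asIdeal) with hS'
  refine ⟨S'.powerset.image (fun s => ∏ x ∈ s, x), ?_, fun I hI hev => ?_⟩
  · refine Finset.card_image_le.trans ?_
    rw [Finset.card_powerset]
    refine Nat.pow_le_pow_right (by norm_num) ?_
    rw [Set.ncard_eq_toFinset_card S hS]
    exact Finset.card_image_le
  obtain ⟨t, d, hs, hd⟩ := MW.multiset_half (UniqueFactorizationMonoid.normalizedFactors I)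
  have hdS : ∀ p ∈ d, p ∈ S' := by
    intro p hp
    have hpI : p ∈ UniqueFactorizationMonoid.normalizedFactors I := by
      rw [hs]; exact Multiset.mem_add.mpr (Or.inr hp)
    have hpp : Prime p := UniqueFactorizationMonoid.prime_of_normalized_factor p hpI
    let v : HeightOneSpectrum (𝓞 K) := ⟨p, Ideal.isPrime_of_prime hpp, hpp.ne_zero⟩
    by_contra hn
    have hv : v ∉ S := by
      intro hv
      apply hn
      rw [hS', Finset.mem_image]
      exact ⟨v, by simpa using hv, rfl⟩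
    have h1 := hev v hv
    rw [hs] at h1
    have h2 : Multiset.count p d = 1 := Multiset.count_eq_one_of_mem hd hp
    have h3 : Multiset.count v.asIdeal (t + t + d) = 2 * Multiset.count p t + 1 := by
      change Multiset.count p (t + t + d) = _
      rw [Multiset.count_add, Multiset.count_add, h2]
      ring
    rw [h3] at h1
    exact (Nat.not_even_iff_odd.mpr ⟨_, rfl⟩) h1
  refine ⟨d.prod, ?_, t.prod, ?_, ?_⟩
  · rw [Finset.mem_image]
    refine ⟨d.toFinset, ?_, ?_⟩
    · rw [Finset.mem_powerset]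
      intro p hp
      exact hdS p (Multiset.mem_toFinset.mp hp)
    · rw [Finset.prod, Multiset.toFinset_val, Multiset.dedup_eq_self.mpr hd]
      simp
  · intro h0
    rw [Multiset.prod_eq_zero_iff] at h0
    have : (0 : Ideal (𝓞 K)) ∈ UniqueFactorizationMonoid.normalizedFactors I := by
      rw [hs]; exact Multiset.mem_add.mpr (Or.inl (Multiset.mem_add.mpr (Or.inl h0)))
    exact (UniqueFactorizationMonoid.prime_of_normalized_factor _ this).ne_zero rfl
  · have h2 : (UniqueFactorizationMonoid.normalizedFactors I).prod = I := by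
      have := UniqueFactorizationMonoid.prod_normalizedFactors hI
      exact associated_iff_eq.mp this
    conv_lhs => rw [← h2, hs]
    rw [Multiset.prod_add, Multiset.prod_add]
    ring

/-- integral version -/
lemma sel_int' (S : Set (HeightOneSpectrum (𝓞 K))) (hS : S.Finite) :
    ∃ T : Finset (𝓞 K), T.card ≤ 2 ^ S.ncard * (cl2 K * 2 ^ Module.finrank ℚ K) ∧
      (∀ t ∈ T, t ≠ 0) ∧ ∀ a : 𝓞 K, a ≠ 0 →
      (∀ v : HeightOneSpectrum (𝓞 K), v ∉ S →
        Even ((UniqueFactorizationMonoid.normalizedFactors (Ideal.span {a})).count v.asIdeal)) →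
      ∃ t ∈ T, ∃ x y : 𝓞 K, x ≠ 0 ∧ y ≠ 0 ∧ x ^ 2 * a = t * y ^ 2 := by
  classical
  obtain ⟨D, hDc, hD⟩ := ideal_half' S hS
  obtain ⟨U, hUc, hU⟩ := units_sq' K
  -- the relation between integers and (ideal, class)
  let Rel : Ideal (𝓞 K) × ClassGroup (𝓞 K) → 𝓞 K → Prop := fun c a =>
    a ≠ 0 ∧ ∃ J : (Ideal (𝓞 K))⁰, Ideal.span {a} = (J : Ideal (𝓞 K)) ^ 2 * c.1 ∧
      ClassGroup.mk0 J = c.2
  let rep : Ideal (𝓞 K) × ClassGroup (𝓞 K) → 𝓞 K := fun c =>
    if h : ∃ a, Rel c a then Classical.choose h else 1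
  have hrep0 : ∀ c, rep c ≠ 0 := by
    intro c
    simp only [rep]
    split_ifs with h
    · exact (Classical.choose_spec h).1
    · exact one_ne_zero
  let Kf : Ideal (𝓞 K) → Finset (ClassGroup (𝓞 K)) := fun d =>
    Finset.univ.filter fun κ => ∃ a, Rel (d, κ) a
  have hKf : ∀ d, (Kf d).card ≤ cl2 K := by
    intro d
    rcases (Kf d).eq_empty_or_nonempty with h | ⟨κ₀, hκ₀⟩
    · rw [h, Finset.card_empty]; exact Nat.zero_le _
    have hsq : ∀ κ ∈ Kf d, (κ / κ₀) ^ 2 = 1 := by
      intro κ hκ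
      rw [Finset.mem_filter] at hκ hκ₀
      obtain ⟨-, a, ha0, J, hJ, hκJ⟩ := hκ
      obtain ⟨-, a₀, ha00, J₀, hJ₀, hκJ₀⟩ := hκ₀
      have hd0 : d ≠ 0 := by
        rintro rfl
        simp only [mul_zero] at hJ
        rw [Ideal.zero_eq_bot, Ideal.span_singleton_eq_bot] at hJ
        exact ha0 hJ
      set δ : (Ideal (𝓞 K))⁰ := ⟨d, mem_nonZeroDivisors_iff_ne_zero.mpr hd0⟩ with hδ
      have key : ∀ (J : (Ideal (𝓞 K))⁰) (a : 𝓞 K), Ideal.span {a} = (J : Ideal (𝓞 K)) ^ 2 * d →
          ClassGroup.mk0 J ^ 2 * ClassGroup.mk0 δ = 1 := by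
        intro J a h
        rw [← map_pow, ← map_mul]
        have h1 : J ^ 2 * δ = ⟨((J ^ 2 * δ : (Ideal (𝓞 K))⁰) : Ideal (𝓞 K)), (J ^ 2 * δ).2⟩ := rfl
        rw [h1, ClassGroup.mk0_eq_one_iff]
        have h2 : ((J ^ 2 * δ : (Ideal (𝓞 K))⁰) : Ideal (𝓞 K)) = Ideal.span {a} := by
          rw [h]
          rfl
        rw [h2]
        exact ⟨⟨a, rfl⟩⟩
      have k1 := key J a hJ
      have k2 := key J₀ a₀ hJ₀
      rw [hκJ] at k1
      rw [hκJ₀] at k2
      rw [div_pow, div_eq_one]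
      exact mul_right_cancel (k1.trans k2.symm)
    unfold cl2
    rw [Nat.card_eq_fintype_card, Fintype.card_subtype]
    refine Finset.card_le_card_of_injOn (fun κ => κ / κ₀) (fun κ hκ => ?_) ?_
    · rw [Finset.coe_filter]
      exact ⟨Finset.mem_univ _, hsq κ hκ⟩
    · intro κ _ κ' _ h
      exact div_left_injective h
  let T : Finset (𝓞 K) := D.biUnion fun d => ((Kf d) ×ˢ U).image
    (fun c => rep (d, c.1) * (c.2 : 𝓞 K))
  refine ⟨T, ?_, ?_, ?_⟩
  · refine (Finset.card_biUnion_le_card_mul _ _ (cl2 K * 2 ^ Module.finrank ℚ K) fun d _ => ?_).trans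
      (Nat.mul_le_mul_right _ hDc)
    refine Finset.card_image_le.trans ?_
    rw [Finset.card_product]
    exact Nat.mul_le_mul (hKf d) hUc
  · intro t ht
    simp only [T, Finset.mem_biUnion, Finset.mem_image] at ht
    obtain ⟨d, -, c, -, rfl⟩ := ht
    exact mul_ne_zero (hrep0 _) (Units.ne_zero _)
  · intro a ha hev
    have hI : Ideal.span {a} ≠ (0 : Ideal (𝓞 K)) := by simpa using ha
    obtain ⟨d, hd, J, hJ, hIJ⟩ := hD _ hI hev
    set J' : (Ideal (𝓞 K))⁰ := ⟨J, mem_nonZeroDivisors_iff_ne_zero.mpr hJ⟩ with hJ'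
    have hR : Rel (d, ClassGroup.mk0 J') a := ⟨ha, J', hIJ, rfl⟩
    have hex : ∃ a, Rel (d, ClassGroup.mk0 J') a := ⟨a, hR⟩
    have hrepe : rep (d, ClassGroup.mk0 J') = Classical.choose hex := by
      simp only [rep]
      rw [dif_pos hex]
    obtain ⟨hb0, J2, hJ2, hcl⟩ := Classical.choose_spec hex
    rw [← hrepe] at hb0 hJ2
    set b := rep (d, ClassGroup.mk0 J') with hb
    obtain ⟨x, y, hx, hy, hxy⟩ := ClassGroup.mk0_eq_mk0_iff.mp hcl
    -- x J2 = y J
    have h1 : Ideal.span {y ^ 2 * a} = Ideal.span {x ^ 2 * b} := by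
      rw [← Ideal.span_singleton_mul_span_singleton, ← Ideal.span_singleton_mul_span_singleton,
        ← Ideal.span_singleton_pow, ← Ideal.span_singleton_pow, hIJ, hJ2]
      have h2 : (Ideal.span {y} * (J' : Ideal (𝓞 K))) = Ideal.span {x} * (J2 : Ideal (𝓞 K)) :=
        hxy.symm
      calc Ideal.span {y} ^ 2 * (J ^ 2 * d) = (Ideal.span {y} * J) ^ 2 * d := by ring
        _ = (Ideal.span {x} * (J2 : Ideal (𝓞 K))) ^ 2 * d := by rw [← h2]
        _ = _ := by ring
    rw [Ideal.span_singleton_eq_span_singleton] at h1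
    obtain ⟨u, hu⟩ := h1.symm
    obtain ⟨t, ht, w, hw⟩ := hU u
    refine ⟨b * (t : 𝓞 K), ?_, y, x * (w : 𝓞 K), hy, mul_ne_zero hx (Units.ne_zero _), ?_⟩
    · simp only [T, Finset.mem_biUnion, Finset.mem_image]
      refine ⟨d, hd, (ClassGroup.mk0 J', t), ?_, rfl⟩
      rw [Finset.mem_product]
      exact ⟨Finset.mem_filter.2 ⟨Finset.mem_univ _, hex⟩, ht⟩
    · rw [← hu, hw]
      push_cast
      ring

/-- the explicit finiteness of `K(S,2)` -/
theorem sel_card (S : Set (HeightOneSpectrum (𝓞 K))) (hS : S.Finite) :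
    ∃ T : Finset K, T.card ≤ 2 ^ S.ncard * (cl2 K * 2 ^ Module.finrank ℚ K) ∧
      (∀ t ∈ T, t ≠ 0) ∧ UC.Good S 2 T := by
  classical
  obtain ⟨T, hTc, hT0, hT⟩ := sel_int' S hS
  refine ⟨T.image (fun t => algebraMap (𝓞 K) K t), Finset.card_image_le.trans hTc, ?_, ?_⟩
  · intro t ht
    obtain ⟨s, hs, rfl⟩ := Finset.mem_image.mp ht
    simpa using hT0 s hs
  · intro a₀ ha₀ hev
    set a : Kˣ := Units.mk0 a₀ ha₀ with ha
    obtain ⟨p, q, hq, hpq⟩ := IsFractionRing.div_surjective (A := 𝓞 K) (a : K)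
    have hq0 : q ≠ 0 := nonZeroDivisors.ne_zero hq
    have hqK : algebraMap (𝓞 K) K q ≠ 0 := by simpa using hq0
    have hp0 : p ≠ 0 := by
      rintro rfl
      rw [map_zero, zero_div] at hpq
      exact a.ne_zero hpq.symm
    have hpqK : algebraMap (𝓞 K) K (p * q) ≠ 0 := by
      simpa using ⟨hp0, hq0⟩
    obtain ⟨t, ht, x, y, hx, hy, hxy⟩ := hT (p * q) (mul_ne_zero hp0 hq0) (by
      intro v hv
      have h1 := MW.val_int v (p * q) (mul_ne_zero hp0 hq0) (Units.mk0 _ hpqK) rfl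
      have h2 : Units.mk0 _ hpqK = a * (Units.mk0 _ hqK) ^ 2 := by
        apply Units.ext
        rw [Units.val_mul, Units.val_pow_eq_pow_val, ← hpq, Units.val_mk0, Units.val_mk0, map_mul]
        field_simp
      rw [h2, map_mul, map_pow, toAdd_mul, toAdd_pow] at h1
      have h3 : Even (-((UniqueFactorizationMonoid.normalizedFactors
          (Ideal.span {p * q})).count v.asIdeal : ℤ)) := by
        rw [← h1]
        obtain ⟨g, hg⟩ := hev v hv
        have h4 := UC.dvd_of_pow v a hg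
        refine (even_iff_two_dvd.2 (by exact_mod_cast h4)).add ?_
        rw [nsmul_eq_mul]
        exact (even_two.mul_right _)
      rw [even_neg] at h3
      exact_mod_cast h3)
    have hxK : algebraMap (𝓞 K) K x ≠ 0 := by simpa using hx
    have hyK : algebraMap (𝓞 K) K y ≠ 0 := by simpa using hy
    refine ⟨algebraMap (𝓞 K) K t, Finset.mem_image_of_mem _ ht,
      algebraMap (𝓞 K) K y / (algebraMap (𝓞 K) K x * algebraMap (𝓞 K) K q),
      div_ne_zero hyK (mul_ne_zero hxK hqK), ?_⟩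
    have h4 := congrArg (algebraMap (𝓞 K) K) hxy
    simp only [map_mul, map_pow] at h4
    have h5 : a₀ = algebraMap (𝓞 K) K p / algebraMap (𝓞 K) K q := hpq.symm
    rw [h5]
    field_simp
    linear_combination h4

end Pool.Agent.Zk42.UV
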